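import Pool.Agent.Helper41.DZ.Gen
import Pool.Agent.Helper40.NSK.Top4

/-! ST_DZ for the selected systems of `R^4`. -/

set_option autoImplicit false

namespace Pool.Agent.Helper41.DZ

open Finset Filter Topology Matrix Pool.Agent.Helper69.RK Pool.Agent.Helper31.EC Pool.Agent.Helper40.EL
open Pool.Agent.Helper31.EC.Sp
open Pool.Agent.Helper95.LF Pool.Agent.Helper3.LF Pool.Agent.Helper48.NS Pool.Agent.Helper89.LX
open Pool.Agent.Helper3.PR Pool.Agent.Helper42.NS Pool.Agent.Helper52.SL Pool.Agent.Helper3.SG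
open Pool.Agent.Helper40.NSK
open Pool.Agent.Helper59.EV (ST)

noncomputable section

variable {G : ℕ → Gg 3} {Φ : ℕ → Fnl 3} {D : ℕ} {g : ℝ} {S : Sp} {s : Sys S 3}

/-- **ST_DZ FOR `R^4`**: a selected system with the sheet `z = P_i` of full depth at the window `c0 < 1`; for the
windows `c ≤ c0` with a sheet of thickness `η > c`, `η > lamI s i c0`, the derivative of the optimal form in the
direction `z` is typically at least `2 ^ ((η - e) n)` -/
theorem dz4 (hs : Sel4 G Φ D g s) (hD : 1 ≤ D) (hst : ST 1 2) {i : Fin 3} (hi : ZDir s D i) (h1 : c0 s D < 1)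
    {c η : ℝ} (h0 : 0 ≤ c) (hcc : c ≤ c0 s D) (hη : Hf s D c η) (hcη : c < η) (hl : lamI s i (c0 s D) < η)
    {x : ∀ k, FD (S.F k) (Mon (3 + 1) D)} (hx : (gau s D).Opt (cA s c) (cB s) x) (e : ℝ) (he : 0 < e) :
    Sp.Typ (S := (lb x).sp) (fun k (ω : (x k).l.T.Ω) => 2 ^ (2 * (η - e) * (S.F k).n) ≤
      Jf (S.dl 1 k) ((x k).g ω) (ptf s k ((x k).l.p.π ω)) i i) := by
  rcases hi with hi | hi
  · exact absurd hi h1.ne
  · exact dz (q := 2) hD hst (fun σ h => rob_of_list hs.robL (i := i) rfl (c0 s D) σ h) hi h0 hcc h1 hη hcη hl hx e he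

/-- the same with a subexponential factor -/
theorem dz4_sub (hs : Sel4 G Φ D g s) (hD : 1 ≤ D) (hst : ST 1 2) {i : Fin 3} (hi : ZDir s D i) (h1 : c0 s D < 1)
    {c η : ℝ} (h0 : 0 ≤ c) (hcc : c ≤ c0 s D) (hη : Hf s D c η) (hcη : c < η) (hl : lamI s i (c0 s D) < η)
    {x : ∀ k, FD (S.F k) (Mon (3 + 1) D)} (hx : (gau s D).Opt (cA s c) (cB s) x) :
    ∃ K : ℕ → ℝ, S.Sub K ∧ (∀ k, 1 ≤ K k) ∧ Sp.Typ (S := (lb x).sp) (fun k (ω : (x k).l.T.Ω) =>
      2 ^ (2 * η * (S.F k).n) ≤ K k * Jf (S.dl 1 k) ((x k).g ω) (ptf s k ((x k).l.p.π ω)) i i) := by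
  rcases hi with hi | hi
  · exact absurd hi h1.ne
  · exact dz_sub (q := 2) hD hst (fun σ h => rob_of_list hs.robL (i := i) rfl (c0 s D) σ h) hi h0 hcc h1 hη hcη hl hx

end

end Pool.Agent.Helper41.DZ
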