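import Pool.Agent.Helper3.UF.Top
import Pool.Agent.Helper48.LIP.Mcnt

/-! DZ, counting: over the label of an optimal form of a factor of one dimension less, on every event of the space of
the label, the volume of any bounding form of the system is at most the volume of the form of the factor plus one. -/

set_option autoImplicit false

namespace Pool.Agent.Helper41.DZ

open Finset Filter Topology Matrix Pool.Agent.Helper69.RK Pool.Agent.Helper31.EC Pool.Agent.Helper40.EL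
open Pool.Agent.Helper31.EC.Sp
open Pool.Agent.Helper95.LF Pool.Agent.Helper3.LF Pool.Agent.Helper48.NS Pool.Agent.Helper89.LX
open Pool.Agent.Helper3.PR Pool.Agent.Helper3.UF
open Pool.Agent.Helper3.SG (Fac)
open Pool.Agent.Helper59.EV (ST)

noncomputable section

variable {S : Sp} {m r D : ℕ}

/-- typical events are typical on events of positive probability -/
theorem tend_rest {T : ℕ → FSp} (E Q : ∀ k, (T k).Ω → Prop) (hE : 0 < ul (fun k => (T k).pb (E k)))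
    (h : Tendsto (fun k => (T k).pb (Q k)) UF (𝓝 0)) :
    Tendsto (fun k => ((T k).rest (E k)).pb (Q k)) UF (𝓝 0) := by
  have hU : UB (fun k => (T k).pb (E k)) := UB_of_nonneg_le (C := 1) (Eventually.of_forall fun k => (T k).pb_nonneg _)
    (Eventually.of_forall fun k => (T k).pb_le_one _)
  set p := ul (fun k => (T k).pb (E k)) with hp
  have h1 := (ul_tendsto hU).eventually (lt_mem_nhds (half_lt_self hE))
  have h2 := h.const_mul (2 / p)
  rw [mul_zero] at h2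
  refine squeeze_zero' (Eventually.of_forall fun k => FSp.pb_nonneg _ _) ?_ h2
  filter_upwards [h1] with k h3
  have h4 := Pool.Agent.Helper42.NS.pb_rest (T k) (E k) (Q k)
  have h5 : (T k).pb (fun ω => E k ω ∧ Q k ω) ≤ (T k).pb (Q k) := (T k).pb_mono fun _ _ h => h.2
  have h6 : 0 ≤ ((T k).rest (E k)).pb (Q k) := FSp.pb_nonneg _ _
  have h7 : p / 2 * ((T k).rest (E k)).pb (Q k) ≤ (T k).pb (Q k) := by
    have := mul_le_mul_of_nonneg_right h3.le h6
    linarith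
  have h8 : ((T k).rest (E k)).pb (Q k) = 2 / p * (p / 2 * ((T k).rest (E k)).pb (Q k)) := by
    have : p ≠ 0 := hE.ne'
    field_simp
  rw [h8]
  exact mul_le_mul_of_nonneg_left h7 (by positivity)

theorem h_mono_sup (l : Lab S) (E : ∀ k, ((l.ovr 1 one_pos).F k).Ω → Prop) (hE : 0 < ul ((l.ovr 1 one_pos).pr E))
    {A B C : S.L} (h4 : A ≤ B ⊔ C) :
    h (restL E hE (up1 l A)) (restL E hE (up1 l C)) ≤ h (restL E hE (up1 l B)) (restL E hE (up1 l C)) := by
  have h5 := restL_mono E hE (up1_mono l h4)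
  refine (h_mono h5).trans (le_of_eq ?_)
  rw [up1_sup, restL_sup]
  exact h_sup_right_of_le le_rfl

/-- LOWER COUNT -/
theorem low {g : Sys S r} {s : Sys S m} (hF : Fac g s) (hD : 1 ≤ D) (hst : ST D m) {c : ℝ} (h0 : 0 ≤ c) (h1 : c < 1)
    {x : ∀ k, FD (S.F k) (Mon (m + 1) D)} (hx : (gau s D).Opt (cA g c) (cB g) x)
    (E : ∀ k, (x k).l.T.Ω → Prop) (hE : 0 < ul (fun k => (x k).l.T.pb (E k))) :
    m - ul (fun k => (∑ ω, ((x k).l.T.rest (E k)).μ ω * vx s k ((x k).g ω) ((x k).l.p.π ω)) / (S.F k).n) / 2 ≤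
      ul (fun k => ((x k).l.T.rest (E k)).e (Setoid.comap (x k).l.p.π (Setoid.ker (g.P.cellv 1 k)))
        (Setoid.comap (x k).l.p.π (Setoid.ker (g.t.cellv 1 k)) ⊓ ((x k).l.V ⊓ (x k).l.T.Z)) / (S.F k).n) := by
  have h2 := can_full hF hD hst h0 h1 hx (Pj.id ((lb x).ovr 1 one_pos)) E hE
  rw [Pj.id_map, Pj.id_map] at h2
  have e0 : s.T = g.T := hF.T
  have h3 := h_mono_sup (lb x) E hE (A := s.P.dg 1) (B := g.P.dg 1) (C := s.T) (by
    rw [e0]
    exact hF.fP)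
  have e1 : g.P.dg 1 = cl (g.IP 1) := (g.cl_IP 1).symm
  have e2 : s.T = cl (g.It 1) := e0.trans (g.cl_It 1).symm
  have h6 := h_rest_up1 (lb x) E hE (g.IP 1) (g.It 1)
  rw [← e1, ← e2] at h6
  exact (h2.trans h3).trans (le_of_eq h6)

/-- UPPER COUNT -/
theorem upp (hD : 1 ≤ D) (s : Sys S m) (l : Lab S)
    (g : ∀ k, (l k).T.Ω → Matrix (Mon (m + 1) D) (Mon (m + 1) D) ℝ)
    (meas : ∀ k ω ω', (l k).T.μ ω ≠ 0 → (l k).T.μ ω' ≠ 0 → (l k).V ω ω' → (l k).T.Z ω ω' → g k ω = g k ω')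
    (hg : ∀ᶠ k in UF, ∀ ω, (l k).T.μ ω ≠ 0 → Cpd ((gau s D).cp k) (g k ω))
    (hφ : ∀ e : ℝ, 0 < e → Tendsto (fun k => (l k).T.pb (fun ω =>
      ¬ sph s D k ((l k).p.π ω) (g k ω) ≤ 2 ^ (e * (S.F k).n))) UF (𝓝 0))
    (E : ∀ k, (l k).T.Ω → Prop) (hE : 0 < ul (fun k => (l k).T.pb (E k))) :
    ul (fun k => ((l k).T.rest (E k)).e (Setoid.comap (l k).p.π (Setoid.ker (s.P.cellv 1 k)))
        (Setoid.comap (l k).p.π (Setoid.ker (s.t.cellv 1 k)) ⊓ ((l k).V ⊓ (l k).T.Z)) / (S.F k).n) ≤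
      m - ul (fun k => (∑ ω, ((l k).T.rest (E k)).μ ω * vx s k (g k ω) ((l k).p.π ω)) / (S.F k).n) / 2 := by
  have hn : ∀ k, ((l k).T.rest (E k)).n = (S.F k).n := fun k => (l k).hn
  have hsup : ∀ k ω, ((l k).T.rest (E k)).μ ω ≠ 0 → (l k).T.μ ω ≠ 0 := fun k ω h => ((l k).T.rest_supp (E k) ω h).1
  have h1 := fun (e : ℝ) (he : 0 < e) => Pool.Agent.Helper48.LIP.mcnt (fun k => (l k).T.rest (E k)) hn hD s
    (fun k => (l k).p.π) (fun k ω h => (l k).p.supp ω (hsup k ω h)) (fun k => (l k).V) g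
    (Eventually.of_forall fun k ω ω' a b c d => meas k ω ω' (hsup k ω a) (hsup k ω' b) c d) (2 * D + 1 + 1)
    (by positivity) (by
      filter_upwards [hg] with k hk ω hω
      exact hk ω (hsup k ω hω)) 0 (by
      intro e he
      have h2 := tend_rest E (fun k ω => ¬ sph s D k ((l k).p.π ω) (g k ω) ≤ 2 ^ (e * (S.F k).n)) hE (hφ e he)
      filter_upwards [h2.eventually (gt_mem_nhds he)] with k hk
      refine le_trans (FSp.pb_mono _ ?_) hk.le
      intro ω _ h3 h4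
      apply h3
      rw [mul_zero, zero_add]
      exact h4) e he
  have hUe : UB (fun k => ((l k).T.rest (E k)).e (Setoid.comap (l k).p.π (Setoid.ker (s.P.cellv 1 k)))
        (Setoid.comap (l k).p.π (Setoid.ker (s.t.cellv 1 k)) ⊓ ((l k).V ⊓ (l k).T.Z)) / (S.F k).n) := by
    have h2 := UB_rt (restI (S := l.ovr 1 one_pos) E (l.upI 1 one_pos (s.IP 1))) (l.upI 1 one_pos (s.It 1)).1
    have e0 : (fun k => ((l k).T.rest (E k)).e (Setoid.comap (l k).p.π (Setoid.ker (s.P.cellv 1 k)))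
        (Setoid.comap (l k).p.π (Setoid.ker (s.t.cellv 1 k)) ⊓ ((l k).V ⊓ (l k).T.Z)) / (S.F k).n) =
        ((l.ovr 1 one_pos).rest E).rt (restI (S := l.ovr 1 one_pos) E (l.upI 1 one_pos (s.IP 1))).1
          (l.upI 1 one_pos (s.It 1)).1 := by
      funext k
      have hn' : (((l.ovr 1 one_pos).rest E).F k).n = (S.F k).n := by
        have h3 : (((l.ovr 1 one_pos).rest E).F k).n = 1 * (l k).T.n := rfl
        rw [h3, one_mul, (l k).hn]
      unfold Sp.rt
      rw [hn']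
      rfl
    rw [e0]
    exact h2
  have hUv : UB (fun k => (∑ ω, ((l k).T.rest (E k)).μ ω * vx s k (g k ω) ((l k).p.π ω)) / (S.F k).n) := by
    obtain ⟨C, hC, h⟩ := logGG_ub s D
    refine UB_of_nonneg_le (C := C) ?_ ?_
    · filter_upwards [hg] with k hk
      apply div_nonneg _ (S.F k).pos.le
      apply Finset.sum_nonneg
      intro ω _
      by_cases h0 : ((l k).T.rest (E k)).μ ω = 0
      · rw [h0, zero_mul]
      · exact mul_nonneg (((l k).T.rest (E k)).nn ω) (logGG_nonneg _ (hk ω (hsup k ω h0)).pdM _)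
    · filter_upwards [hg, h] with k hk h2
      rw [div_le_iff₀ (S.F k).pos]
      apply sum_mul_le
      intro ω hω
      exact h2 _ ((l k).p.supp ω (hsup k ω hω)) _ (hk ω (hsup k ω hω))
  have t1 := ul_tendsto hUe
  have t2 := (ul_tendsto hUv).div_const 2
  apply le_of_forall_pos_le_add
  intro e he
  have t3 := (t2.const_sub ((m : ℝ) + e))
  have h3 := le_of_tendsto_of_tendsto t1 t3 (by
    filter_upwards [h1 e he] with k hk
    have hn0 := (S.F k).pos
    rw [div_le_iff₀ hn0]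
    have e1 : h (fc (F := (l k).T.rest (E k)) (Setoid.comap (l k).p.π ((s.fin k).kP 1)))
        (fc (F := (l k).T.rest (E k)) ((l k).V) ⊔
          fc (F := (l k).T.rest (E k)) (Setoid.comap (l k).p.π ((s.fin k).kt 1))) =
        ((l k).T.rest (E k)).e (Setoid.comap (l k).p.π (Setoid.ker (s.P.cellv 1 k)))
        (Setoid.comap (l k).p.π (Setoid.ker (s.t.cellv 1 k)) ⊓ ((l k).V ⊓ (l k).T.Z)) := by
      refine (h_fc (F := (l k).T.rest (E k)) (Setoid.comap (l k).p.π ((s.fin k).kP 1))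
        ((l k).V ⊓ Setoid.comap (l k).p.π ((s.fin k).kt 1))).trans ?_
      apply FSp.e_congr_right
      intro ω ω' _ _
      constructor
      · rintro ⟨⟨a, b⟩, c⟩
        exact ⟨b, a, c⟩
      · rintro ⟨b, a, c⟩
        exact ⟨⟨a, b⟩, c⟩
    rw [e1] at hk
    refine hk.trans (le_of_eq ?_)
    have e2 : (∑ ω, ((l k).T.rest (E k)).μ ω * Real.logb 2 (GG (S.dl 1 k) (g k ω) (ptf s k ((l k).p.π ω)))) =
        ∑ ω, ((l k).T.rest (E k)).μ ω * vx s k (g k ω) ((l k).p.π ω) := rfl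
    rw [e2]
    field_simp
    ring)
  linarith

/-- **THE COUNT**: the volume of a bounding form of the system against the volume of the optimal form of a factor -/
theorem cnt {D' q : ℕ} {s : Sys S m} {s' : Sys S q} (hF : Fac s s') (hD : 1 ≤ D) (hD' : 1 ≤ D') (hst : ST D' q)
    {c : ℝ} (h0 : 0 ≤ c) (h1 : c < 1) {y : ∀ k, FD (S.F k) (Mon (q + 1) D')}
    (hy : (gau s' D').Opt (cA s c) (cB s) y)
    (g : ∀ k, (y k).l.T.Ω → Matrix (Mon (m + 1) D) (Mon (m + 1) D) ℝ)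
    (meas : ∀ k ω ω', (y k).l.T.μ ω ≠ 0 → (y k).l.T.μ ω' ≠ 0 → (y k).l.V ω ω' → (y k).l.T.Z ω ω' → g k ω = g k ω')
    (hg : ∀ᶠ k in UF, ∀ ω, (y k).l.T.μ ω ≠ 0 → Cpd ((gau s D).cp k) (g k ω))
    (hφ : ∀ e : ℝ, 0 < e → Tendsto (fun k => (y k).l.T.pb (fun ω =>
      ¬ sph s D k ((y k).l.p.π ω) (g k ω) ≤ 2 ^ (e * (S.F k).n))) UF (𝓝 0))
    (E : ∀ k, (y k).l.T.Ω → Prop) (hE : 0 < ul (fun k => (y k).l.T.pb (E k))) :
    ul (fun k => (∑ ω, ((y k).l.T.rest (E k)).μ ω * vx s k (g k ω) ((y k).l.p.π ω)) / (S.F k).n) ≤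
      2 * (m - q) + ul (fun k => (∑ ω, ((y k).l.T.rest (E k)).μ ω *
        vx s' k ((y k).g ω) ((y k).l.p.π ω)) / (S.F k).n) := by
  have h2 := low hF hD' hst h0 h1 hy E hE
  have h3 : ul (fun k => ((y k).l.T.rest (E k)).e (Setoid.comap (y k).l.p.π (Setoid.ker (s.P.cellv 1 k)))
        (Setoid.comap (y k).l.p.π (Setoid.ker (s.t.cellv 1 k)) ⊓ ((y k).l.V ⊓ (y k).l.T.Z)) / (S.F k).n) ≤
      m - ul (fun k => (∑ ω, ((y k).l.T.rest (E k)).μ ω * vx s k (g k ω) ((y k).l.p.π ω)) / (S.F k).n) / 2 :=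
    upp hD s (lb y) g meas hg hφ E hE
  have h4 := h2.trans h3
  linarith

end

end Pool.Agent.Helper41.DZ
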