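import Pool.Agent.Helper41.DZ.Main
import Pool.Agent.Helper40.NSK.Gdi

/-! ST_DZ in terms of `HfE` and of the thickness `lamP` of the projection along the coordinate `z`. -/

set_option autoImplicit false

namespace Pool.Agent.Helper41.DZ

open Finset Filter Topology Matrix Pool.Agent.Helper69.RK Pool.Agent.Helper31.EC Pool.Agent.Helper40.EL
open Pool.Agent.Helper31.EC.Sp
open Pool.Agent.Helper95.LF Pool.Agent.Helper3.LF Pool.Agent.Helper48.NS Pool.Agent.Helper89.LX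
open Pool.Agent.Helper3.PR Pool.Agent.Helper42.NS Pool.Agent.Helper52.SL Pool.Agent.Helper3.SG
open Pool.Agent.Helper40.NSK
open Pool.Agent.Helper59.EV (ST)

noncomputable section

variable {S : Sp} {q D : ℕ}

/-- `HfE` is read off any optimal form -/
theorem HfE_opt {m : ℕ} {s : Sys S m} {v : Fin m → ℝ} {c σ : ℝ} (h : HfE s D v c σ)
    {x : ∀ k, FD (S.F k) (Mon (m + 1) D)} (hx : (gau s D).Opt (cA s c) (cB s) x) (e : ℝ) (he : 0 < e) :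
    Tendsto (fun k => (x k).l.T.pb (fun ω => ¬ 2 ^ (2 * (σ - e) * (S.F k).n) ≤
      v ⬝ᵥ (Jf (S.dl 1 k) ((x k).g ω) (ptf s k ((x k).l.p.π ω)) *ᵥ v))) UF (𝓝 0) := by
  obtain ⟨y, hy, hσ⟩ := h
  have h1 := Gau.Opt.lower (gau s D) hx hy
    (fun k ω A => v ⬝ᵥ (Jf (S.dl 1 k) A (ptf s k ω) *ᵥ v)) (fun k ω M N c _ h => by
      show v ⬝ᵥ (Jf (S.dl 1 k) M (ptf s k ω) *ᵥ v) ≤ c * (v ⬝ᵥ (Jf (S.dl 1 k) N (ptf s k ω) *ᵥ v))
      rw [Jf_qf, Jf_qf, Finset.mul_sum]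
      exact Finset.sum_le_sum fun j _ => h _) (2 * σ)
    (fun e' he' => by
      have := hσ (e' / 2) (by linarith)
      refine this.congr fun k => ?_
      congr 1
      funext ω
      congr 2
      ring_nf) (2 * e) (by linarith)
  refine h1.congr fun k => ?_
  congr 1
  funext ω
  congr 2
  ring_nf

variable {s : Sys S (q + 1)} {z : Fin (q + 1)} {c c0 η : ℝ}

/-- **ST_DZ**, general dimension -/
theorem dz (hD : 1 ≤ D) (hst : ST 1 q)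
    (hrob : ∀ σ : ℝ, 0 < psi (GDP (Lz z) 1) s c0 σ → HH (GDP (Lz z) 1) s c0 σ) (hz : HfE s D (Pi.single z 1) c0 1)
    (h0 : 0 ≤ c) (hcc : c ≤ c0) (h1 : c0 < 1) (hη : Hf s D c η) (hcη : c < η)
    (hl : lamP s (prB (Lz z) s) 1 c0 < η)
    {x : ∀ k, FD (S.F k) (Mon (q + 1 + 1) D)} (hx : (gau s D).Opt (cA s c) (cB s) x) (e : ℝ) (he : 0 < e) :
    Sp.Typ (S := (lb x).sp) (fun k (ω : (x k).l.T.Ω) => 2 ^ (2 * (η - e) * (S.F k).n) ≤
      Jf (S.dl 1 k) ((x k).g ω) (ptf s k ((x k).l.p.π ω)) z z) := by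
  obtain ⟨x0, hx0⟩ := (gau s D).exists_opt (cA s c0) (cB s)
  obtain ⟨y, hy⟩ := (gau (prB (Lz z) s) 1).exists_opt (cA s c0) (cB s)
  refine st_dz hD hst h0 hcc h1 hη hcη (lamP_nonneg le_rfl c0) hl hx0 (fun e' he' => ?_) hx hy
    (fun δ hδ => sgaP_le hrob hy.1 δ hδ) e he
  refine (HfE_opt hz hx0 e' he').congr fun k => ?_
  congr 1
  funext ω
  rw [← qf_ez (Jf (S.dl 1 k) ((x0 k).g ω) (ptf s k ((x0 k).l.p.π ω))) z]
  rfl

/-- the same with a subexponential factor -/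
theorem dz_sub (hD : 1 ≤ D) (hst : ST 1 q)
    (hrob : ∀ σ : ℝ, 0 < psi (GDP (Lz z) 1) s c0 σ → HH (GDP (Lz z) 1) s c0 σ) (hz : HfE s D (Pi.single z 1) c0 1)
    (h0 : 0 ≤ c) (hcc : c ≤ c0) (h1 : c0 < 1) (hη : Hf s D c η) (hcη : c < η)
    (hl : lamP s (prB (Lz z) s) 1 c0 < η)
    {x : ∀ k, FD (S.F k) (Mon (q + 1 + 1) D)} (hx : (gau s D).Opt (cA s c) (cB s) x) :
    ∃ K : ℕ → ℝ, S.Sub K ∧ (∀ k, 1 ≤ K k) ∧ Sp.Typ (S := (lb x).sp) (fun k (ω : (x k).l.T.Ω) =>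
      2 ^ (2 * η * (S.F k).n) ≤ K k * Jf (S.dl 1 k) ((x k).g ω) (ptf s k ((x k).l.p.π ω)) z z) := by
  obtain ⟨K, hK, hK1, hT⟩ := typ_sub_ge (S := (lb x).sp)
    (fun k (ω : (x k).l.T.Ω) => Jf (S.dl 1 k) ((x k).g ω) (ptf s k ((x k).l.p.π ω)) z z) (2 * η) (fun e he => by
      have h2 := dz hD hst hrob hz h0 hcc h1 hη hcη hl hx (e / 2) (half_pos he)
      refine typ_mono h2 (Eventually.of_forall fun k ω _ h3 => ?_)
      rw [sp_n]
      have e1 : (2 * η - e) * (S.F k).n = 2 * (η - e / 2) * (S.F k).n := by ring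
      rw [e1]
      exact h3)
  refine ⟨K, (sp_Sub _).mp hK, hK1, typ_mono hT (Eventually.of_forall fun k ω _ h3 => ?_)⟩
  rw [sp_n] at h3
  exact h3

end

end Pool.Agent.Helper41.DZ
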