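import Pool.Agent.Helper3.UF.Dom

/-! DZ: labels which map to labels; forms on the finer label; common labels of three labels with forms. -/

set_option autoImplicit false

namespace Pool.Agent.Helper41.DZ

open Finset Filter Topology Matrix Pool.Agent.Helper69.RK Pool.Agent.Helper31.EC Pool.Agent.Helper40.EL
open Pool.Agent.Helper31.EC.Sp
open Pool.Agent.Helper95.LF Pool.Agent.Helper3.LF Pool.Agent.Helper48.NS Pool.Agent.Helper89.LX

noncomputable section

variable {S : Sp}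

/-- a label which maps to another one -/
structure LM (Λ l : Lab S) where
  q : ∀ k, FPj (Λ k).T (l k).T
  hq : ∀ k ω, (Λ k).T.μ ω ≠ 0 → (l k).p.π ((q k).π ω) = (Λ k).p.π ω
  hV : ∀ k ω ω', (Λ k).V ω ω' → (l k).V ((q k).π ω) ((q k).π ω')

namespace LM

variable {Λ Λ' l l' : Lab S}

/-- identity -/
def id (l : Lab S) : LM l l where
  q := fun k => ⟨fun ω => ω, by
    funext ω
    rw [push_ind, Finset.sum_eq_single ω]
    · rw [e1_ind_pos rfl, one_mul]
    · intro b _ hb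
      rw [e1_ind_neg hb, zero_mul]
    · intro h
      exact absurd (Finset.mem_univ _) h, fun _ _ _ _ => Iff.rfl⟩
  hq := fun _ _ _ => rfl
  hV := fun _ _ _ h => h

/-- composition -/
def comp (r : LM Λ' Λ) (r' : LM Λ l) : LM Λ' l where
  q := fun k => (r.q k).comp (r'.q k)
  hq := fun k ω h => (r'.hq k _ ((r.q k).supp ω h)).trans (r.hq k ω h)
  hV := fun k ω ω' h => r'.hV k _ _ (r.hV k ω ω' h)

/-- the join maps to the first label -/
def fst (l l' : Lab S) : LM (l.join l') l where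
  q := fun k => ((l k).am (l' k)).p1
  hq := fun _ _ _ => rfl
  hV := fun _ _ _ h => h.1

/-- the join maps to the second label -/
def snd (l l' : Lab S) : LM (l.join l') l' where
  q := fun k => ((l k).am (l' k)).p2
  hq := fun k w hw => (((l k).am (l' k)).supp w hw).1.symm
  hV := fun _ _ _ h => h.2

/-- typical events -/
theorem typ (r : LM Λ l) (E : ∀ k, (l k).T.Ω → Prop)
    (h : Tendsto (fun k => (l k).T.pb (fun ω => ¬ E k ω)) UF (𝓝 0)) :
    Tendsto (fun k => (Λ k).T.pb (fun ω => ¬ E k ((r.q k).π ω))) UF (𝓝 0) := by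
  refine h.congr fun k => ?_
  exact (pb_push (r.q k) (fun ω => ¬ E k ω)).symm

variable {ι : Type} [Fintype ι] [DecidableEq ι] {Φ : Gau S ι} {A B : Part S}

/-- the forms on the finer label -/
def fd {x : ∀ k, FD (S.F k) ι} (r : LM Λ (lb x)) (k : ℕ) : FD (S.F k) ι where
  l := Λ k
  g := fun ω => (x k).g ((r.q k).π ω)
  g' := fun ω => (x k).g' ((r.q k).π ω)
  meas := fun ω ω' a b c d => (x k).meas _ _ ((r.q k).supp ω a) ((r.q k).supp ω' b) (r.hV k ω ω' c)
    (((r.q k).hZ ω ω' a b).mp d)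

omit [DecidableEq ι] [Fintype ι] in
theorem fd_g {x : ∀ k, FD (S.F k) ι} (r : LM Λ (lb x)) (k : ℕ) (ω : (Λ k).T.Ω) :
    (r.fd k).g ω = (x k).g ((r.q k).π ω) := rfl

theorem ad {x : ∀ k, FD (S.F k) ι} (hx : Φ.Ad A B x) (r : LM Λ (lb x)) (hΛ : Λ.DM A B) : Φ.Ad A B r.fd := by
  intro η hη
  filter_upwards [hx η hη, hΛ.1.eventually (gt_mem_nhds hη), hΛ.2.eventually (gt_mem_nhds hη)] with k a b c
  have hn := (S.F k).pos
  rw [div_lt_iff₀ hn] at b c
  refine ⟨b.le, c.le, fun ω hω => a.2.2.1 _ ((r.q k).supp ω hω), ?_, ?_⟩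
  · have h1 := pb_push (r.q k) (fun ω => ¬ Φ.φ k ((x k).l.p.π ω) ((x k).g ω) ≤ 2 ^ (η * (S.F k).n))
    refine le_trans (FSp.pb_mono _ ?_) (h1.le.trans a.2.2.2.1)
    intro ω hω h2 h3
    apply h2
    have h4 : (x k).l.p.π ((r.q k).π ω) = (Λ k).p.π ω := r.hq k ω hω
    rw [h4] at h3
    exact h3
  · have h1 := pb_push (r.q k) (fun ω => ¬ Φ.φ k ((x k).l.p.π ω) ((x k).g' ω) ≤ 2 ^ (η * (S.F k).n))
    refine le_trans (FSp.pb_mono _ ?_) (h1.le.trans a.2.2.2.2)
    intro ω hω h2 h3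
    apply h2
    have h4 : (x k).l.p.π ((r.q k).π ω) = (Λ k).p.π ω := r.hq k ω hω
    rw [h4] at h3
    exact h3

theorem opt {x : ∀ k, FD (S.F k) ι} (hx : Φ.Opt A B x) (r : LM Λ (lb x)) (hΛ : Λ.DM A B) : Φ.Opt A B r.fd := by
  refine ⟨r.ad hx.1 hΛ, fun y hy => ?_⟩
  have h1 : (fun k => (r.fd k).sc / (S.F k).n) = fun k => (x k).sc / (S.F k).n := by
    funext k
    congr 1
    exact sum_push (r.q k) (fun ω => Real.logb 2 ((x k).g ω).det)
  rw [h1]
  exact hx.2 y hy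

/-- domination on the finer label -/
theorem dom {x : ∀ k, FD (S.F k) ι} (hx : Φ.Opt A B x) (r : LM Λ (lb x)) {z : ∀ k, FD (S.F k) ι}
    (hz : Φ.Ad A B z) (r' : LM Λ (lb z)) (hΛ : Λ.DM A B) (e : ℝ) (he : 0 < e) :
    Tendsto (fun k => (Λ k).T.pb (fun ω => ¬ ∀ v, qf ((z k).g ((r'.q k).π ω)) v ≤
      2 ^ (e * (S.F k).n) * qf ((x k).g ((r.q k).π ω)) v)) UF (𝓝 0) :=
  Pool.Agent.Helper3.UF.dom_ext hx (r'.ad hz hΛ) r.q r.hq r.hV e he

end LM

end

end Pool.Agent.Helper41.DZ
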