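import Pool.Agent.Helper3.PR.Det
import Pool.Agent.Helper89.LX.Det

/-! DZ, linear algebra: the Schur complement of one coordinate, and the determinant inequality of the case A:
a large diagonal entry in the direction `z`, a form on the other coordinates, one more large direction. -/

set_option autoImplicit false

namespace Pool.Agent.Helper41.DZ

open Matrix Pool.Agent.Helper95.LF Pool.Agent.Helper89.LX Pool.Agent.Helper3.PR

noncomputable section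

variable {q : ℕ}

/-- forget the coordinate `z` -/
def Lz (z : Fin (q + 1)) : Matrix (Fin q) (Fin (q + 1)) ℝ := Matrix.of fun a b => if z.succAbove a = b then 1 else 0

/-- zero in the coordinate `z` -/
def Rz (z : Fin (q + 1)) : Matrix (Fin (q + 1)) (Fin q) ℝ := Matrix.of fun b a => if b = z.succAbove a then 1 else 0

/-- the unit vector -/
def ez (z : Fin (q + 1)) : Fin (q + 1) → ℝ := Pi.single z 1

theorem Lz_mulVec (z : Fin (q + 1)) (v : Fin (q + 1) → ℝ) : Lz z *ᵥ v = fun a => v (z.succAbove a) := by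
  funext a
  show ∑ b, (if z.succAbove a = b then (1 : ℝ) else 0) * v b = _
  simp

theorem Rz_mulVec_succAbove (z : Fin (q + 1)) (w : Fin q → ℝ) (a : Fin q) : (Rz z *ᵥ w) (z.succAbove a) = w a := by
  show ∑ b, (if z.succAbove a = z.succAbove b then (1 : ℝ) else 0) * w b = _
  rw [Finset.sum_eq_single a]
  · rw [if_pos rfl, one_mul]
  · intro b _ hb
    rw [if_neg (fun h => hb (Fin.succAbove_right_injective h).symm), zero_mul]
  · intro h
    exact absurd (Finset.mem_univ _) h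

theorem Rz_mulVec_self (z : Fin (q + 1)) (w : Fin q → ℝ) : (Rz z *ᵥ w) z = 0 := by
  show ∑ b, (if z = z.succAbove b then (1 : ℝ) else 0) * w b = _
  apply Finset.sum_eq_zero
  intro b _
  rw [if_neg (Fin.succAbove_ne z b).symm, zero_mul]

theorem Lz_Rz (z : Fin (q + 1)) : Lz z * Rz z = 1 := by
  ext a b
  rw [Matrix.mul_apply, Matrix.one_apply]
  show ∑ j, (if z.succAbove a = j then (1 : ℝ) else 0) * (if j = z.succAbove b then 1 else 0) = _
  rw [Finset.sum_eq_single (z.succAbove a)]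
  · rw [if_pos rfl, one_mul]
    by_cases h : a = b
    · rw [if_pos h, h, if_pos rfl]
    · rw [if_neg h, if_neg (fun h' => h (Fin.succAbove_right_injective h'))]
  · intro b _ hb
    rw [if_neg (fun h' => hb h'.symm), zero_mul]
  · intro h
    exact absurd (Finset.mem_univ _) h

theorem Lz_ez (z : Fin (q + 1)) : Lz z *ᵥ ez z = 0 := by
  rw [Lz_mulVec]
  funext a
  unfold ez
  rw [Pi.single_eq_of_ne (Fin.succAbove_ne z a)]
  rfl

theorem Rz_Lz (z : Fin (q + 1)) (v : Fin (q + 1) → ℝ) : Rz z *ᵥ (Lz z *ᵥ v) + v z • ez z = v := by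
  funext b
  rw [Pi.add_apply, Pi.smul_apply, smul_eq_mul]
  rcases Fin.eq_self_or_eq_succAbove z b with h | ⟨a, h⟩
  · rw [h, Rz_mulVec_self, zero_add]
    unfold ez
    rw [Pi.single_eq_same, mul_one]
  · rw [h, Rz_mulVec_succAbove, Lz_mulVec]
    unfold ez
    rw [Pi.single_eq_of_ne (Fin.succAbove_ne z a), mul_zero, add_zero]

theorem Lz_Rz_mulVec (z : Fin (q + 1)) (w : Fin q → ℝ) : Lz z *ᵥ (Rz z *ᵥ w) = w := by
  rw [Matrix.mulVec_mulVec, Lz_Rz, Matrix.one_mulVec]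

theorem Rz_single (z : Fin (q + 1)) (i : Fin q) : Rz z *ᵥ Pi.single i 1 = ez (z.succAbove i) := by
  funext b
  rw [Matrix.mulVec_single_one]
  show (if b = z.succAbove i then (1 : ℝ) else 0) = _
  unfold ez
  by_cases h : b = z.succAbove i
  · rw [if_pos h, h, Pi.single_eq_same]
  · rw [if_neg h, Pi.single_eq_of_ne h]

/-! ### quadratic forms -/

theorem sym_dot {κ : Type} [Fintype κ] {G : Matrix κ κ ℝ} (hG : G.IsSymm) (u v : κ → ℝ) :
    (G *ᵥ u) ⬝ᵥ v = u ⬝ᵥ (G *ᵥ v) := by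
  rw [Matrix.dotProduct_mulVec, ← Matrix.mulVec_transpose, hG.eq]

theorem qf_add_vec {κ : Type} [Fintype κ] {G : Matrix κ κ ℝ} (hG : G.IsSymm) (u v : κ → ℝ) :
    (u + v) ⬝ᵥ (G *ᵥ (u + v)) = u ⬝ᵥ (G *ᵥ u) + 2 * ((G *ᵥ v) ⬝ᵥ u) + v ⬝ᵥ (G *ᵥ v) := by
  rw [Matrix.mulVec_add, dotProduct_add, add_dotProduct, add_dotProduct, ← sym_dot hG v u, dotProduct_comm u (G *ᵥ v)]
  ring

theorem qf_ez (G : Matrix (Fin (q + 1)) (Fin (q + 1)) ℝ) (z : Fin (q + 1)) : ez z ⬝ᵥ (G *ᵥ ez z) = G z z := by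
  unfold ez
  rw [single_one_dotProduct, Matrix.mulVec_single_one]
  rfl

/-- the Schur complement -/
def Sc (G : Matrix (Fin (q + 1)) (Fin (q + 1)) ℝ) (z : Fin (q + 1)) : Matrix (Fin q) (Fin q) ℝ :=
  (Rz z).transpose * G * Rz z - (G z z)⁻¹ • Matrix.vecMulVec ((Rz z).transpose *ᵥ (G *ᵥ ez z))
    ((Rz z).transpose *ᵥ (G *ᵥ ez z))

theorem Sc_symm {G : Matrix (Fin (q + 1)) (Fin (q + 1)) ℝ} (hG : G.IsSymm) (z : Fin (q + 1)) : (Sc G z).IsSymm := by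
  unfold Matrix.IsSymm Sc
  rw [Matrix.transpose_sub, Matrix.transpose_smul, Matrix.transpose_mul, Matrix.transpose_mul,
    Matrix.transpose_transpose, hG.eq, Matrix.mul_assoc, Matrix.transpose_vecMulVec]

theorem Sc_qf (G : Matrix (Fin (q + 1)) (Fin (q + 1)) ℝ) (z : Fin (q + 1)) (w : Fin q → ℝ) :
    w ⬝ᵥ (Sc G z *ᵥ w) = (Rz z *ᵥ w) ⬝ᵥ (G *ᵥ (Rz z *ᵥ w)) - (G z z)⁻¹ * ((G *ᵥ ez z) ⬝ᵥ (Rz z *ᵥ w)) ^ 2 := by
  unfold Sc
  rw [Matrix.sub_mulVec, dotProduct_sub, dv_conj', Matrix.smul_mulVec, dotProduct_smul, smul_eq_mul]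
  have h1 : ((Rz z).transpose *ᵥ (G *ᵥ ez z)) ⬝ᵥ w = (G *ᵥ ez z) ⬝ᵥ (Rz z *ᵥ w) := by
    rw [Matrix.mulVec_transpose, ← Matrix.dotProduct_mulVec]
  have h2 : w ⬝ᵥ (Matrix.vecMulVec ((Rz z).transpose *ᵥ (G *ᵥ ez z)) ((Rz z).transpose *ᵥ (G *ᵥ ez z)) *ᵥ w) =
      ((G *ᵥ ez z) ⬝ᵥ (Rz z *ᵥ w)) ^ 2 := by
    rw [Matrix.vecMulVec_mulVec, h1, dotProduct_smul]
    show MulOpposite.op ((G *ᵥ ez z) ⬝ᵥ (Rz z *ᵥ w)) • (w ⬝ᵥ ((Rz z).transpose *ᵥ (G *ᵥ ez z))) = _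
    rw [op_smul_eq_smul, smul_eq_mul, dotProduct_comm w, h1, pow_two]
  rw [h2]

/-- the decomposition of the form -/
theorem Sc_split {G : Matrix (Fin (q + 1)) (Fin (q + 1)) ℝ} (hG : G.IsSymm) (z : Fin (q + 1)) (hz : 0 < G z z)
    (v : Fin (q + 1) → ℝ) :
    v ⬝ᵥ (G *ᵥ v) = (Lz z *ᵥ v) ⬝ᵥ (Sc G z *ᵥ (Lz z *ᵥ v)) + (G z z)⁻¹ * ((G *ᵥ ez z) ⬝ᵥ v) ^ 2 := by
  rw [Sc_qf]
  set w := Rz z *ᵥ (Lz z *ᵥ v) with hw
  have h1 : v = w + v z • ez z := (Rz_Lz z v).symm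
  have h2 : v ⬝ᵥ (G *ᵥ v) = w ⬝ᵥ (G *ᵥ w) + 2 * (v z * ((G *ᵥ ez z) ⬝ᵥ w)) + v z ^ 2 * G z z := by
    conv_lhs => rw [h1]
    rw [qf_add_vec hG, Matrix.mulVec_smul, smul_dotProduct, smul_dotProduct, dotProduct_smul, qf_ez, smul_eq_mul,
      smul_eq_mul, smul_eq_mul]
    ring
  have h3 : (G *ᵥ ez z) ⬝ᵥ v = (G *ᵥ ez z) ⬝ᵥ w + v z * G z z := by
    conv_lhs => rw [h1]
    rw [dotProduct_add, dotProduct_smul, smul_eq_mul, dotProduct_comm (G *ᵥ ez z) (ez z), qf_ez]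
  rw [h2, h3]
  field_simp
  ring

/-- the minimiser -/
def vm (G : Matrix (Fin (q + 1)) (Fin (q + 1)) ℝ) (z : Fin (q + 1)) (w : Fin q → ℝ) : Fin (q + 1) → ℝ :=
  Rz z *ᵥ w + (-((G z z)⁻¹ * ((G *ᵥ ez z) ⬝ᵥ (Rz z *ᵥ w)))) • ez z

theorem Lz_vm (G : Matrix (Fin (q + 1)) (Fin (q + 1)) ℝ) (z : Fin (q + 1)) (w : Fin q → ℝ) :
    Lz z *ᵥ vm G z w = w := by
  unfold vm
  rw [Matrix.mulVec_add, Lz_Rz_mulVec, Matrix.mulVec_smul, Lz_ez, smul_zero, add_zero]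

theorem vm_qf {G : Matrix (Fin (q + 1)) (Fin (q + 1)) ℝ} (hG : G.IsSymm) (z : Fin (q + 1)) (hz : 0 < G z z)
    (w : Fin q → ℝ) : w ⬝ᵥ (Sc G z *ᵥ w) = vm G z w ⬝ᵥ (G *ᵥ vm G z w) := by
  rw [Sc_split hG z hz (vm G z w), Lz_vm]
  have h1 : (G *ᵥ ez z) ⬝ᵥ vm G z w = 0 := by
    unfold vm
    rw [dotProduct_add, dotProduct_smul, smul_eq_mul, dotProduct_comm (G *ᵥ ez z) (ez z), qf_ez, neg_mul,
      mul_assoc, mul_comm ((G *ᵥ ez z) ⬝ᵥ (Rz z *ᵥ w)) (G z z), ← mul_assoc, inv_mul_cancel₀ hz.ne', one_mul]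
    ring
  rw [h1]
  ring

theorem Sc_pd {G : Matrix (Fin (q + 1)) (Fin (q + 1)) ℝ} (hG : PdM G) (z : Fin (q + 1)) (hz : 0 < G z z) :
    PdM (Sc G z) := by
  refine ⟨Sc_symm hG.1 z, fun w hw => ?_⟩
  rw [vm_qf hG.1 z hz]
  apply hG.2
  intro h
  apply hw
  rw [← Lz_vm G z w, h, Matrix.mulVec_zero]

/-- the determinant of the Schur complement -/
theorem Sc_det {G : Matrix (Fin (q + 1)) (Fin (q + 1)) ℝ} (hG : PdM G) (z : Fin (q + 1)) (hz : 0 < G z z) :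
    G z z * (Sc G z).det ≤ ((q + 1).factorial : ℝ) ^ 2 * G.det := by
  have h1 := det_schur G (Sc G z) (Lz z) (Rz z) (ez z) ((Real.sqrt (G z z))⁻¹ • (G *ᵥ ez z)) 1 1 one_pos
    (Lz_Rz z) (Lz_ez z) hG.1 hG.det_pos.le (Sc_pd hG z hz) (fun i => by
      unfold ez
      by_cases h : i = z
      · rw [h, Pi.single_eq_same, abs_one]
      · rw [Pi.single_eq_of_ne h, abs_zero]; norm_num) (fun i j => by
      show |if i = z.succAbove j then (1 : ℝ) else 0| ≤ 1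
      split_ifs
      · rw [abs_one]
      · rw [abs_zero]; norm_num) (fun v => by
      rw [one_mul, Sc_split hG.1 z hz v, smul_dotProduct, smul_eq_mul, mul_pow, inv_pow, Real.sq_sqrt hz.le])
  rw [smul_dotProduct, smul_eq_mul, mul_pow, inv_pow, Real.sq_sqrt hz.le, dotProduct_comm (G *ᵥ ez z) (ez z), qf_ez,
    one_pow, mul_one, inv_one, mul_one] at h1
  have h2 : (G z z)⁻¹ * G z z ^ 2 = G z z := by
    field_simp
  rwa [h2] at h1

/-- Cauchy-Schwarz for one off-diagonal entry -/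
theorem off_le {G : Matrix (Fin (q + 1)) (Fin (q + 1)) ℝ} (hG : PdM G) (z i : Fin (q + 1)) (hz : 0 < G z z) :
    ((G z z)⁻¹ * ((G *ᵥ ez z) ⬝ᵥ ez i)) ^ 2 ≤ G i i / G z z := by
  set b := (G *ᵥ ez z) ⬝ᵥ ez i with hb
  have h1 : 0 ≤ (ez i + (-((G z z)⁻¹ * b)) • ez z) ⬝ᵥ (G *ᵥ (ez i + (-((G z z)⁻¹ * b)) • ez z)) := hG.nonneg _
  rw [qf_add_vec hG.1, Matrix.mulVec_smul, smul_dotProduct, smul_dotProduct, dotProduct_smul, qf_ez, qf_ez,
    smul_eq_mul, smul_eq_mul, smul_eq_mul, ← hb] at h1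
  have h2 : G i i + 2 * (-((G z z)⁻¹ * b) * b) + -((G z z)⁻¹ * b) * (-((G z z)⁻¹ * b) * G z z) =
      G i i - (G z z)⁻¹ * b ^ 2 := by
    field_simp
    ring
  rw [h2] at h1
  rw [le_div_iff₀ hz, mul_pow]
  have h3 : (G z z)⁻¹ ^ 2 * b ^ 2 * G z z = (G z z)⁻¹ * b ^ 2 := by
    field_simp
  rw [h3]
  linarith

/-- the value of the Schur complement in the direction `i`, when a smaller form is large in the direction `i` and small
in the direction `z` -/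
theorem Sc_ge {G J : Matrix (Fin (q + 1)) (Fin (q + 1)) ℝ} (hG : PdM G) (hJs : J.IsSymm)
    (hJ : ∀ v, 0 ≤ v ⬝ᵥ (J *ᵥ v)) (z : Fin (q + 1)) (i : Fin q) (hz : 0 < G z z) (c P1 P2 T : ℝ)
    (hT : G (z.succAbove i) (z.succAbove i) ≤ T * G z z) (hJG : ∀ v, v ⬝ᵥ (J *ᵥ v) ≤ c * (v ⬝ᵥ (G *ᵥ v)))
    (hP1 : P1 ≤ J (z.succAbove i) (z.succAbove i)) (hP2 : J z z ≤ P2) (hPP : 4 * (T * P2) ≤ P1) :
    P1 ≤ 4 * (c * Sc G z i i) := by
  have e1 : Sc G z i i = (Pi.single i 1 : Fin q → ℝ) ⬝ᵥ (Sc G z *ᵥ Pi.single i 1) := by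
    rw [single_one_dotProduct, Matrix.mulVec_single_one]
    rfl
  rw [e1, vm_qf hG.1 z hz]
  set b := (G z z)⁻¹ * ((G *ᵥ ez z) ⬝ᵥ ez (z.succAbove i)) with hb
  have e2 : vm G z (Pi.single i 1) = ez (z.succAbove i) + (-b) • ez z := by
    unfold vm
    rw [Rz_single]
  have h1 := hJG (vm G z (Pi.single i 1))
  rw [e2] at h1 ⊢
  set v := ez (z.succAbove i) + (-b) • ez z with hv
  have h2 : b ^ 2 ≤ T := by
    refine (off_le hG z (z.succAbove i) hz).trans ?_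
    rw [div_le_iff₀ hz]
    exact hT
  -- the small form
  have h3 : J (z.succAbove i) (z.succAbove i) ≤ 2 * (v ⬝ᵥ (J *ᵥ v)) + 2 * (b ^ 2 * J z z) := by
    have h4 := hJ (v - b • ez z)
    have h5 : ez (z.succAbove i) ⬝ᵥ (J *ᵥ ez (z.succAbove i)) =
        (v + b • ez z) ⬝ᵥ (J *ᵥ (v + b • ez z)) := by
      have : v + b • ez z = ez (z.succAbove i) := by
        rw [hv, neg_smul, neg_add_cancel_right]
      rw [this]
    rw [qf_ez] at h5
    rw [h5, qf_add_vec hJs, Matrix.mulVec_smul, smul_dotProduct, smul_dotProduct, dotProduct_smul, qf_ez,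
      smul_eq_mul, smul_eq_mul, smul_eq_mul]
    have h6 : (v - b • ez z) = v + (-b) • ez z := by
      rw [neg_smul, sub_eq_add_neg]
    rw [h6, qf_add_vec hJs, Matrix.mulVec_smul, smul_dotProduct, smul_dotProduct, dotProduct_smul, qf_ez,
      smul_eq_mul, smul_eq_mul, smul_eq_mul] at h4
    nlinarith
  have hJz : 0 ≤ J z z := by
    have := hJ (ez z)
    rwa [qf_ez] at this
  have h7 : b ^ 2 * J z z ≤ T * P2 := mul_le_mul h2 hP2 hJz ((sq_nonneg b).trans h2)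
  linarith

/-- **THE DETERMINANT INEQUALITY** -/
theorem det_main {J0 J1 : Matrix (Fin (q + 1)) (Fin (q + 1)) ℝ} {N : Matrix (Fin q) (Fin q) ℝ} (z : Fin (q + 1))
    (i : Fin q) (X G0 P1 P2 B0 T c : ℝ) (h0s : J0.IsSymm) (h0 : ∀ v, 0 ≤ v ⬝ᵥ (J0 *ᵥ v)) (h1s : J1.IsSymm)
    (h1 : ∀ v, 0 ≤ v ⬝ᵥ (J1 *ᵥ v)) (hNs : N.IsSymm) (hN : ∀ w, 0 ≤ w ⬝ᵥ (N *ᵥ w)) (hX : 1 ≤ X)
    (hdom : ∀ v, (Lz z *ᵥ v) ⬝ᵥ (N *ᵥ (Lz z *ᵥ v)) ≤ X * (v ⬝ᵥ (J0 *ᵥ v)))
    (hc : 0 < c) (h10 : ∀ v, v ⬝ᵥ (J1 *ᵥ v) ≤ c * (v ⬝ᵥ (J0 *ᵥ v))) (hG0 : 0 < G0) (hG : G0 ≤ J0 z z)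
    (hT : 1 + J0 (z.succAbove i) (z.succAbove i) ≤ T * G0) (hT0 : 0 ≤ T)
    (hP1 : P1 ≤ J1 (z.succAbove i) (z.succAbove i)) (hP0 : 0 ≤ P1)
    (hP2 : J1 z z ≤ P2) (hPP : 4 * (T * P2) ≤ P1) (hB : 1 + N i i ≤ B0) :
    G0 * (P1 * (1 + N).det) ≤ (((q + 1).factorial : ℝ) ^ 2 * (4 * c * B0 * X ^ q)) * (1 + J0).det := by
  have hGp : PdM (1 + J0) := PdM.one.add h0s h0
  have hNp : PdM (1 + N) := PdM.one.add hNs hN
  have e0 : (1 + J0) z z = 1 + J0 z z := by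
    rw [Matrix.add_apply, Matrix.one_apply_eq]
  have hz : 0 < (1 + J0) z z := by rw [e0]; linarith
  set G := 1 + J0 with hGd
  have hSp := Sc_pd hGp z hz
  -- the value in the direction `i`
  have hGv : ∀ v, v ⬝ᵥ (J0 *ᵥ v) ≤ v ⬝ᵥ (G *ᵥ v) := by
    intro v
    rw [hGd, dv_add, Matrix.one_mulVec]
    have := self_nonneg' v
    linarith
  have hS := Sc_ge hGp h1s h1 z i hz c P1 P2 T (by
    have e1 : G (z.succAbove i) (z.succAbove i) = 1 + J0 (z.succAbove i) (z.succAbove i) := by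
      rw [hGd, Matrix.add_apply, Matrix.one_apply_eq]
    rw [e1]
    refine hT.trans (mul_le_mul_of_nonneg_left ?_ hT0)
    rw [e0]
    linarith) (fun v => (h10 v).trans (mul_le_mul_of_nonneg_left (hGv v) hc.le)) hP1 hP2 hPP
  -- domination of the form on the other coordinates
  have hX0 : 0 < X := by linarith
  set A := X⁻¹ • (1 + N) with hA
  have hAp : PdM A := hNp.smul (inv_pos.mpr hX0)
  have hAS : ∀ w, w ⬝ᵥ (A *ᵥ w) ≤ w ⬝ᵥ (Sc G z *ᵥ w) := by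
    intro w
    rw [vm_qf hGp.1 z hz, hA, dv_smul, inv_mul_le_iff₀ hX0, hGd, dv_add, dv_add, Matrix.one_mulVec,
      Matrix.one_mulVec, mul_add]
    have h2 := hdom (vm G z w)
    rw [Lz_vm] at h2
    have h3 : w ⬝ᵥ w ≤ vm G z w ⬝ᵥ vm G z w := by
      have h4 : vm G z w ⬝ᵥ vm G z w = vm G z w z ^ 2 + ∑ a, vm G z w (z.succAbove a) ^ 2 := by
        unfold dotProduct
        rw [Fin.sum_univ_succAbove _ z]
        congr 1
        · ring
        · exact Finset.sum_congr rfl fun a _ => by ring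
      have h5 : w ⬝ᵥ w = ∑ a, vm G z w (z.succAbove a) ^ 2 := by
        unfold dotProduct
        refine Finset.sum_congr rfl fun a _ => ?_
        have h6 := congrFun (Lz_vm G z w) a
        rw [Lz_mulVec] at h6
        have h7 : vm G z w (z.succAbove a) = w a := h6
        rw [h7]; ring
      rw [h4, h5]
      have := sq_nonneg (vm G z w z)
      linarith
    have h8 := self_nonneg' (vm G z w)
    rw [← hGd]
    nlinarith
  have hBs : (Sc G z - A).IsSymm := hSp.1.sub hAp.1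
  have hBp : Psd (Sc G z - A) := ⟨hBs, fun w => by
    unfold qf
    rw [Matrix.sub_mulVec, dotProduct_sub]
    have := hAS w
    linarith⟩
  have hne : (Pi.single i 1 : Fin q → ℝ) ≠ 0 := by
    intro h
    have := congrFun h i
    rw [Pi.single_eq_same] at this
    exact one_ne_zero this
  have ev : ∀ M : Matrix (Fin q) (Fin q) ℝ, qf M (Pi.single i 1) = M i i := by
    intro M
    unfold qf
    rw [single_one_dotProduct, Matrix.mulVec_single_one]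
    rfl
  have hAi : 0 < A i i := by
    have := hAp.2 _ hne
    have h9 := ev A
    unfold qf at h9
    rwa [h9] at this
  have hgain := det_gain' hAp hBp (Sc G z i i / A i i - 1) (Pi.single i 1) hne (by
    rw [ev, ev, Matrix.sub_apply, sub_mul, one_mul, div_mul_cancel₀ _ hAi.ne'])
  have e3 : A + (Sc G z - A) = Sc G z := by abel
  rw [e3] at hgain
  have e4 : 1 + (Sc G z i i / A i i - 1) = Sc G z i i / A i i := by ring
  rw [e4] at hgain
  have e5 : A.det = (X⁻¹) ^ q * (1 + N).det := by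
    rw [hA, Matrix.det_smul, Fintype.card_fin]
  have e6 : A i i = X⁻¹ * (1 + N i i) := by
    rw [hA, Matrix.smul_apply, Matrix.add_apply, Matrix.one_apply_eq, smul_eq_mul]
  have hdN := hNp.det_pos
  have hN1 : 0 < 1 + N i i := by
    have h11 := hN (Pi.single i 1)
    have h12 := ev N
    unfold qf at h12
    rw [h12] at h11
    linarith
  have hXq : 0 < X ^ q := pow_pos hX0 q
  -- lower bound of the determinant of the Schur complement
  have h13 : P1 * (1 + N).det ≤ 4 * c * B0 * X ^ q * (Sc G z).det := by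
    have h14 : Sc G z i i * A.det ≤ A i i * (Sc G z).det := by
      rw [div_mul_eq_mul_div, div_le_iff₀ hAi] at hgain
      linarith
    rw [e5, e6] at h14
    have hdS := hSp.det_pos
    have h15 : Sc G z i i * (1 + N).det ≤ B0 * X ^ q * (Sc G z).det := by
      have h16 : Sc G z i i * (1 + N).det = X ^ q * (Sc G z i i * ((X⁻¹) ^ q * (1 + N).det)) := by
        rw [inv_pow]
        field_simp
      rw [h16]
      have h17 : X⁻¹ * (1 + N i i) * (Sc G z).det ≤ B0 * (Sc G z).det := by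
        apply mul_le_mul_of_nonneg_right _ hdS.le
        have h18 : X⁻¹ ≤ 1 := inv_le_one_of_one_le₀ hX
        nlinarith
      calc X ^ q * (Sc G z i i * ((X⁻¹) ^ q * (1 + N).det)) ≤ X ^ q * (B0 * (Sc G z).det) :=
            mul_le_mul_of_nonneg_left (h14.trans h17) hXq.le
        _ = _ := by ring
    calc P1 * (1 + N).det ≤ 4 * (c * Sc G z i i) * (1 + N).det := mul_le_mul_of_nonneg_right hS hdN.le
      _ = 4 * c * (Sc G z i i * (1 + N).det) := by ring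
      _ ≤ 4 * c * (B0 * X ^ q * (Sc G z).det) := mul_le_mul_of_nonneg_left h15 (by positivity)
      _ = _ := by ring
  have h19 := Sc_det hGp z hz
  have hB0 : 0 < B0 := hN1.trans_le hB
  calc G0 * (P1 * (1 + N).det) ≤ G z z * (4 * c * B0 * X ^ q * (Sc G z).det) := by
        apply mul_le_mul _ h13 (by positivity) hz.le
        rw [e0]
        linarith
    _ = (4 * c * B0 * X ^ q) * (G z z * (Sc G z).det) := by ring
    _ ≤ (4 * c * B0 * X ^ q) * (((q + 1).factorial : ℝ) ^ 2 * G.det) :=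
        mul_le_mul_of_nonneg_left h19 (by positivity)
    _ = _ := by ring

end

end Pool.Agent.Helper41.DZ
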