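import Pool.Agent.Helper3.PR.Prj

/-! DZ: pull-back of forms of a projection, for any pair of informations. -/

set_option autoImplicit false

namespace Pool.Agent.Helper41.DZ

open Finset Filter Topology Matrix Pool.Agent.Helper69.RK Pool.Agent.Helper31.EC Pool.Agent.Helper40.EL
open Pool.Agent.Helper31.EC.Sp
open Pool.Agent.Helper95.LF Pool.Agent.Helper3.LF Pool.Agent.Helper48.NS Pool.Agent.Helper89.LX
open Pool.Agent.Helper3.PR

noncomputable section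

variable {S : Sp} {q m D : ℕ} (s : Sys S m) (M : ℕ → Matrix (Fin q) (Fin m) ℝ) (K : ℕ → ℝ) (hK : S.Sub K)
    (hM : ∀ᶠ k in UF, ∀ i j, |M k i j| ≤ K k)

theorem pbA_phi {A B : Part S} {y : ∀ k, FD (S.F k) (Mon (q + 1) D)}
    (hy : (gau (pr s M K hK hM) D).Ad A B y) :
    ∃ L : ℕ → ℝ, S.Sub L ∧ Sp.Typ (S := (lb y).sp)
      (fun k (ω : (y k).l.T.Ω) => (gau s D).φ k ((y k).l.p.π ω) (pbf M y k ω) ≤ L k) := by
  obtain ⟨K1, hK1, hT⟩ := ad_sub hy
  obtain ⟨K2, hK2, h2⟩ := (gau s D).one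
  have hcst : (0 : ℝ) ≤ nn (m + 1) D := by have := nn_one (m + 1) D; linarith
  have hCu := Cu_one D
  have hCm := Cm_one (q + 1) D
  refine ⟨fun k => K2 k + (nn (m + 1) D * (Cu D * Cm (q + 1) D * (m * K k + 1) ^ D) ^ 2) * K1 k,
    hK2.add (Sp.Sub.mul ((S.Sub_const hcst).mul (Sub_pow' ((S.Sub_const (by positivity)).mul
      (Sub_pow' (((S.Sub_const (Nat.cast_nonneg m)).mul hK).add (S.Sub_const zero_le_one)) D)) 2)) hK1), ?_⟩
  refine typ_mono hT ?_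
  filter_upwards [h2, hM, hK.1, hy 1 one_pos] with k a b b' c ω hω hφ
  have hω' := (y k).l.p.supp ω hω
  have h3 := (c.2.2.1 ω hω).1
  have h4 : (gau s D).φ k ((y k).l.p.π ω) (pbf M y k ω) =
      (gau s D).φ k ((y k).l.p.π ω) 1 + phi (S.dl 1 k) (pbk (M k) ((y k).g ω)) (ptf s k ((y k).l.p.π ω)) :=
    (gau s D).add k _ _ _
  rw [h4]
  refine add_le_add (a _ hω') ?_
  have h5 := phi_pbk_le (M k) (K k) b' b ((y k).g ω) (pdM_of_one_le h3.1 h3.2.1) (S.dl 1 k) (S.dl_pos 1 k)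
    (ptf s k ((y k).l.p.π ω))
  rw [← ptf_pr s M K hK hM] at h5
  exact h5.trans (mul_le_mul_of_nonneg_left hφ (by positivity))

/-- the pull-back of an admissible form is admissible -/
theorem pbA_ad {A B : Part S} {y : ∀ k, FD (S.F k) (Mon (q + 1) D)}
    (hy : (gau (pr s M K hK hM) D).Ad A B y) :
    (gau s D).Ad A B (cutFD (gau s D) (lb y) (pbf M y) (pbf_meas M y)) := by
  obtain ⟨L, hL, hT⟩ := pbA_phi s M K hK hM hy
  exact cut_ad (Φ := gau s D) (lb y) (Gau.Ad.dm _ hy) (pbf M y) (pbf_meas M y) (pbf_ge M hy) L hL hT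

theorem pbA_typ {A B : Part S} {y : ∀ k, FD (S.F k) (Mon (q + 1) D)}
    (hy : (gau (pr s M K hK hM) D).Ad A B y) :
    Sp.Typ (S := (lb y).sp) (fun k (ω : (y k).l.T.Ω) => Cpd ((gau s D).cp k) (pbf M y k ω)) := by
  obtain ⟨L, hL, hT⟩ := pbA_phi s M K hK hM hy
  exact cut_typ (Φ := gau s D) (lb y) (pbf M y) (pbf_ge M hy) L hL hT

end

end Pool.Agent.Helper41.DZ
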