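import Pool.Agent.Helper41.DZ.Lin
import Pool.Agent.Helper42.NS.Deg

/-! DZ: the pointwise inequality. -/

set_option autoImplicit false

namespace Pool.Agent.Helper41.DZ

open Finset Matrix Pool.Agent.Helper95.LF Pool.Agent.Helper3.LF Pool.Agent.Helper48.NS Pool.Agent.Helper89.LX
open Pool.Agent.Helper3.PR Pool.Agent.Helper42.NS

noncomputable section

variable {q D : ℕ}

theorem trJ_eq {m : ℕ} (r : ℝ) (A : Matrix (Mon (m + 1) D) (Mon (m + 1) D) ℝ) (p : Fin (m + 1) → ℝ) :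
    trJ r A p = ∑ i, Jf r A p i i := by
  unfold trJ
  exact Finset.sum_congr rfl fun i _ => (Jf_apply r A p i i).symm

theorem Jf_diag_le {m : ℕ} (r : ℝ) {A : Matrix (Mon (m + 1) D) (Mon (m + 1) D) ℝ} (hA : PdM A)
    (p : Fin (m + 1) → ℝ) (i : Fin m) : Jf r A p i i ≤ gam r A p := by
  have h1 := Jf_gam r A hA p (Pi.single i 1)
  have h2 : (Pi.single i 1 : Fin m → ℝ) ⬝ᵥ (Jf r A p *ᵥ Pi.single i 1) = Jf r A p i i := by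
    rw [single_one_dotProduct, Matrix.mulVec_single_one]
    rfl
  have h3 : (Pi.single i 1 : Fin m → ℝ) ⬝ᵥ (Pi.single i 1 : Fin m → ℝ) = 1 := by
    rw [single_one_dotProduct, Pi.single_eq_same]
  rw [h2, h3, mul_one] at h1
  exact h1

/-- the constant of the pull-back -/
def cPB (q D : ℕ) : ℝ :=
  cdg (q + 1) 1 D * (nn (q + 1) D * (Cu D * Cm (q + 1 + 1) D * (q * 1 + 1) ^ D) ^ 2)

theorem cPB_one (q D : ℕ) : 1 ≤ cPB q D := by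
  have h1 := cdg_one (q + 1) 1 D
  have h2 := nn_one (q + 1) D
  have h3 := Cu_one D
  have h4 := Cm_one (q + 1 + 1) D
  have h5 : (1 : ℝ) ≤ (q * 1 + 1) ^ D := one_le_pow₀ (by
    have : (0 : ℝ) ≤ q := Nat.cast_nonneg q
    linarith)
  have h6 : 1 ≤ (Cu D * Cm (q + 1 + 1) D * (q * 1 + 1) ^ D) ^ 2 :=
    one_le_pow₀ (one_le_mul_of_one_le_of_one_le (one_le_mul_of_one_le_of_one_le h3 h4) h5)
  unfold cPB
  exact one_le_mul_of_one_le_of_one_le h1 (one_le_mul_of_one_le_of_one_le h2 h6)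

theorem Rz_abs (z : Fin (q + 1)) (i : Fin (q + 1)) (j : Fin q) : |Rz z i j| ≤ 1 := by
  show |if i = z.succAbove j then (1 : ℝ) else 0| ≤ 1
  split_ifs
  · rw [abs_one]
  · rw [abs_zero]; norm_num

/-- the gradients of a form of degree 1 on the other coordinates are dominated -/
theorem Jf_dom (hD : 1 ≤ D) (z : Fin (q + 1)) {A0 : Matrix (Mon (q + 1 + 1) D) (Mon (q + 1 + 1) D) ℝ}
    {B : Matrix (Mon (q + 1) 1) (Mon (q + 1) 1) ℝ} (hB : PdM B) (hB1 : ∀ x, x ⬝ᵥ x ≤ x ⬝ᵥ (B *ᵥ x)) {r : ℝ}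
    (hr : 0 < r) (p : Fin (q + 1 + 1) → ℝ) (c : ℝ)
    (hd : ∀ v, qf (1 + pbk (Lz z) (upm hD B)) v ≤ c * qf A0 v) (v : Fin (q + 1) → ℝ) :
    (Lz z *ᵥ v) ⬝ᵥ (Jf r B (ext (Lz z) p) *ᵥ (Lz z *ᵥ v)) ≤ (cPB q D * c) * (v ⬝ᵥ (Jf r A0 p *ᵥ v)) := by
  have hU := upm_pd hD hB.1 hB1
  have h1 := Jf_upm_ge (D' := D) hD hB hr (ext (Lz z) p) (Lz z *ᵥ v)
  have h2 := Jf_pbk_ge (D := D) (Lz z) (Rz z) (Lz_Rz z) 1 zero_le_one (Rz_abs z) (upm hD B) hU r hr p v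
  have h3 : v ⬝ᵥ (Jf r (pbk (Lz z) (upm hD B)) p *ᵥ v) ≤ c * (v ⬝ᵥ (Jf r A0 p *ᵥ v)) := by
    rw [Jf_qf, Jf_qf, Finset.mul_sum]
    refine Finset.sum_le_sum fun j _ => ?_
    have h4 := hd (Wd (q + 1) D (nodp D p r j) *ᵥ v)
    unfold qf at h4
    rw [dv_add, Matrix.one_mulVec] at h4
    have := dot_self_nonneg (Wd (q + 1) D (nodp D p r j) *ᵥ v)
    linarith
  have hc1 : 0 ≤ cdg (q + 1) 1 D := zero_le_one.trans (cdg_one _ _ _)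
  have hc2 : 0 ≤ nn (q + 1) D * (Cu D * Cm (q + 1 + 1) D * (q * 1 + 1) ^ D) ^ 2 := by
    have := nn_one (q + 1) D
    positivity
  calc (Lz z *ᵥ v) ⬝ᵥ (Jf r B (ext (Lz z) p) *ᵥ (Lz z *ᵥ v)) ≤
      cdg (q + 1) 1 D * ((Lz z *ᵥ v) ⬝ᵥ (Jf r (upm hD B) (ext (Lz z) p) *ᵥ (Lz z *ᵥ v))) := h1
    _ ≤ cdg (q + 1) 1 D * (nn (q + 1) D * (Cu D * Cm (q + 1 + 1) D * (q * 1 + 1) ^ D) ^ 2 *
        (v ⬝ᵥ (Jf r (pbk (Lz z) (upm hD B)) p *ᵥ v))) := mul_le_mul_of_nonneg_left h2 hc1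
    _ ≤ cdg (q + 1) 1 D * (nn (q + 1) D * (Cu D * Cm (q + 1 + 1) D * (q * 1 + 1) ^ D) ^ 2 *
        (c * (v ⬝ᵥ (Jf r A0 p *ᵥ v)))) :=
        mul_le_mul_of_nonneg_left (mul_le_mul_of_nonneg_left h3 hc2) hc1
    _ = _ := by unfold cPB; ring

/-- **THE POINTWISE INEQUALITY** -/
theorem pnt (hD : 1 ≤ D) (z : Fin (q + 1)) {A0 A1 : Matrix (Mon (q + 1 + 1) D) (Mon (q + 1 + 1) D) ℝ}
    {B : Matrix (Mon (q + 1) 1) (Mon (q + 1) 1) ℝ} (h0 : PdM A0) (h1 : PdM A1) (hB : PdM B)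
    (hB1 : ∀ x, x ⬝ᵥ x ≤ x ⬝ᵥ (B *ᵥ x)) {r : ℝ} (hr : 0 < r) (p : Fin (q + 1 + 1) → ℝ) (c G0 T P P1 P2 B0 : ℝ)
    (hc : 1 ≤ c) (hd1 : ∀ v, qf A1 v ≤ c * qf A0 v)
    (hd2 : ∀ v, qf (1 + pbk (Lz z) (upm hD B)) v ≤ c * qf A0 v) (hG0 : 0 < G0) (hG : G0 ≤ Jf r A0 p z z)
    (hT0 : 0 ≤ T) (hT : 1 + gam r A0 p ≤ T * G0) (hP : P ≤ 1 + trJ r A1 p) (hP2 : Jf r A1 p z z ≤ P2)
    (hP1 : 0 ≤ P1) (hPP : 1 + (P2 + q * P1) < P) (hTP : 4 * (T * P2) ≤ P1)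
    (hB0 : 1 + gam r B (ext (Lz z) p) ≤ B0) :
    G0 * (P1 * GG r B (ext (Lz z) p)) ≤
      (((q + 1).factorial : ℝ) ^ 2 * (4 * c * B0 * (cPB q D * c) ^ q)) * GG r A0 p := by
  have hex : ∃ i : Fin q, P1 ≤ Jf r A1 p (z.succAbove i) (z.succAbove i) := by
    by_contra hcon
    push Not at hcon
    rw [trJ_eq, Fin.sum_univ_succAbove _ z] at hP
    have h3 := Finset.sum_le_card_nsmul (Finset.univ : Finset (Fin q))
      (fun i => Jf r A1 p (z.succAbove i) (z.succAbove i)) P1 (fun i _ => (hcon i).le)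
    rw [nsmul_eq_mul, Finset.card_univ, Fintype.card_fin] at h3
    linarith
  obtain ⟨i, hi⟩ := hex
  have hmul : ∀ (c' : ℝ) (v : Fin (q + 1) → ℝ), (∀ w, qf A1 w ≤ c' * qf A0 w) →
      v ⬝ᵥ (Jf r A1 p *ᵥ v) ≤ c' * (v ⬝ᵥ (Jf r A0 p *ᵥ v)) := by
    intro c' v h
    rw [Jf_qf, Jf_qf, Finset.mul_sum]
    exact Finset.sum_le_sum fun j _ => h _
  exact det_main z i (cPB q D * c) G0 P1 P2 B0 T c (Jf_symm r h0.1 p) (Jf_nonneg r h0.nonneg p) (Jf_symm r h1.1 p)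
    (Jf_nonneg r h1.nonneg p) (Jf_symm r hB.1 _) (Jf_nonneg r hB.nonneg _)
    (one_le_mul_of_one_le_of_one_le (cPB_one q D) hc) (Jf_dom hD z hB hB1 hr p c hd2) (by linarith)
    (fun v => hmul c v hd1) hG0 hG ((add_le_add le_rfl (Jf_diag_le r h0 p _)).trans hT) hT0 hi hP1 hP2 hTP
    ((add_le_add le_rfl (Jf_diag_le r hB _ i)).trans hB0)

end

end Pool.Agent.Helper41.DZ
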