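import Pool.Agent.Helper52.SL.Pob
import Pool.Agent.Helper42.NS.Hfb

/-! DZ: in a system which is robust for the forms of degree `D` on a projection `R`, the gradient of every bounding form
of the window `c` on the projection is typically at most the thickness `lamP`. -/

set_option autoImplicit false

namespace Pool.Agent.Helper41.DZ

open Finset Filter Topology Matrix Pool.Agent.Helper69.RK Pool.Agent.Helper31.EC Pool.Agent.Helper31.EC.Sp
open Pool.Agent.Helper40.EL Pool.Agent.Helper95.LF Pool.Agent.Helper3.LF Pool.Agent.Helper48.NS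
open Pool.Agent.Helper89.LX Pool.Agent.Helper3.PR Pool.Agent.Helper42.NS Pool.Agent.Helper52.SL
open Pool.Agent.Helper3.SG

noncomputable section

variable {S : Sp} {m q D : ℕ} {s : Sys S m} {R : Matrix (Fin q) (Fin m) ℝ}

/-- upper bound of the gradient on the projection, under the zero-one law for the gauge of the projection -/
theorem sgaP_le {c : ℝ} (hrob : ∀ σ : ℝ, 0 < psi (GDP R D) s c σ → HH (GDP R D) s c σ)
    {x : ∀ k, FD (S.F k) (Mon (q + 1) D)} (hx : (gau (prB R s) D).Ad (cA s c) (cB s) x) (δ : ℝ) (hδ : 0 < δ) :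
    Tendsto (fun k => (x k).l.T.pb (fun ω => ¬ sga (prB R s) D k ((x k).l.p.π ω) ((x k).g ω) ≤
      2 ^ (2 * (lamP s (prB R s) D c + δ) * (S.F k).n))) UF (𝓝 0) := by
  classical
  set P : ℕ → ℝ := fun k => (x k).l.T.pb (fun ω => ¬ sga (prB R s) D k ((x k).l.p.π ω) ((x k).g ω) ≤
      2 ^ (2 * (lamP s (prB R s) D c + δ) * (S.F k).n)) with hP
  have hU : UB P := UB_of_nonneg_le (C := 1) (Eventually.of_forall fun k => (x k).l.T.pb_nonneg _)
    (Eventually.of_forall fun k => (x k).l.T.pb_le_one _)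
  have hlim := ul_tendsto hU
  have h0 : 0 ≤ ul P := ge_of_tendsto hlim (Eventually.of_forall fun k => (x k).l.T.pb_nonneg _)
  rcases h0.eq_or_lt with h1 | h1
  · rw [← h1] at hlim
    exact hlim
  exfalso
  have hmem : ul P ∈ psiS (GDP R D) s c (lamP s (prB R s) D c + δ) := by
    intro η hη
    filter_upwards [hx η hη, hlim.eventually (lt_mem_nhds (show ul P - η < ul P by linarith))] with k a b
    have hn := (S.F k).pos
    refine ⟨ofFDP (x k) (fun ω hω => (a.2.2.1 ω hω).1), a.1, a.2.1, pb_of_compl a.2.2.2.1, ?_⟩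
    refine b.le.trans ?_
    show (x k).l.T.pb _ ≤ (x k).l.T.pb _
    apply FSp.pb_mono
    intro ω _ h2
    refine le_trans ?_ (not_le.mp h2).le
    show (2 : ℝ) ^ (2 * (lamP s (prB R s) D c + δ - η) * (S.F k).n) ≤ _
    apply Real.rpow_le_rpow_of_exponent_le (by norm_num)
    nlinarith
  have h2 : 0 < psi (GDP R D) s c (lamP s (prB R s) D c + δ) := h1.trans_le (le_psi s hmem)
  have h4 := le_lamP (HfP_of_HH (hrob _ h2))
  linarith

/-- the zero-one law from a robust list of gauges -/
theorem rob_of_list {κ : Type} {G : κ → Gg m} (h : RobustG G s) {i : κ} (hi : G i = GDP R D) (c σ : ℝ)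
    (h0 : 0 < psi (GDP R D) s c σ) : HH (GDP R D) s c σ := by
  rw [← hi] at h0 ⊢
  exact h.HH_of_pos i h0

end

end Pool.Agent.Helper41.DZ
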