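import Pool.Agent.Helper41.DZ.Lab
import Pool.Agent.Helper41.DZ.Rob
import Pool.Agent.Helper41.DZ.Cnt
import Pool.Agent.Helper41.DZ.Pnt
import Pool.Agent.Helper41.DZ.Pbf

/-! ST_DZ: windows before the window `c0` of the full sheet: the gradient of the optimal form of the window `c` in the
direction `z` is typically at least `2 ^ (eta n)`, if the gradient of the optimal form of `c0` in the direction `z` is
`2 ^ n` and the thickness `lam` of the projection along `z` at the window `c0` is less than `eta`. -/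

set_option autoImplicit false

namespace Pool.Agent.Helper41.DZ

open Finset Filter Topology Matrix Pool.Agent.Helper69.RK Pool.Agent.Helper31.EC Pool.Agent.Helper40.EL
open Pool.Agent.Helper31.EC.Sp
open Pool.Agent.Helper95.LF Pool.Agent.Helper3.LF Pool.Agent.Helper48.NS Pool.Agent.Helper89.LX
open Pool.Agent.Helper3.PR Pool.Agent.Helper3.UF Pool.Agent.Helper42.NS
open Pool.Agent.Helper3.SG (Fac)
open Pool.Agent.Helper59.EV (ST)

noncomputable section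

variable {S : Sp} {q D : ℕ}

theorem pb_or3 (F : FSp) (E1 E2 E3 : F.Ω → Prop) : F.pb (fun ω => E1 ω ∨ E2 ω ∨ E3 ω) ≤ F.pb E1 + F.pb E2 + F.pb E3 := by
  have h1 := pb_or F E1 (fun ω => E2 ω ∨ E3 ω)
  have h2 := pb_or F E2 E3
  linarith

/-- real numbers: the exponents -/
theorem exps {n η a e C2 : ℝ} (hn : 0 < n) (hC2 : 0 ≤ C2) (h1 : C2 + 4 ≤ 2 ^ (e * n)) (he : 0 < e)
    (hea : 8 * e ≤ a) (heη : 2 * e ≤ η) (q : ℕ) (hq : (q : ℝ) + 2 < 2 ^ (e * n)) :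
    1 + C2 * 2 ^ ((2 + e) * n) ≤ 2 ^ (4 * e * n) * 2 ^ (2 * (1 - e) * n) ∧
    4 * ((2 : ℝ) ^ (4 * e * n) * 2 ^ (2 * (η - a) * n)) ≤ 2 ^ (2 * (η - 2 * e) * n) ∧
    1 + ((2 : ℝ) ^ (2 * (η - a) * n) + q * 2 ^ (2 * (η - 2 * e) * n)) < 2 ^ (2 * (η - e) * n) := by
  have hpw : ∀ a b : ℝ, (2 : ℝ) ^ (a * n) * 2 ^ (b * n) = 2 ^ ((a + b) * n) := by
    intro a b
    rw [← Real.rpow_add (by norm_num)]
    congr 1; ring
  have hle : ∀ a b : ℝ, a ≤ b → (2 : ℝ) ^ (a * n) ≤ 2 ^ (b * n) := fun a b hab =>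
    Real.rpow_le_rpow_of_exponent_le (by norm_num) (mul_le_mul_of_nonneg_right hab hn.le)
  have hp0 : ∀ a : ℝ, (0 : ℝ) < 2 ^ (a * n) := fun a => Real.rpow_pos_of_pos (by norm_num) _
  have hone : ∀ a : ℝ, 0 ≤ a → (1 : ℝ) ≤ 2 ^ (a * n) := fun a ha => Real.one_le_rpow (by norm_num) (mul_nonneg ha hn.le)
  refine ⟨?_, ?_, ?_⟩
  · rw [hpw]
    have e1 : (4 * e + 2 * (1 - e)) = e + (2 + e) := by ring
    have e3 := hpw e (2 + e)
    rw [e1, ← e3]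
    have h2 := hone (2 + e) (by linarith)
    nlinarith [hp0 (2 + e)]
  · rw [hpw]
    have h2 : 4 * (2 : ℝ) ^ ((4 * e + 2 * (η - a)) * n) ≤ 2 ^ (e * n) * 2 ^ ((4 * e + 2 * (η - a)) * n) :=
      mul_le_mul_of_nonneg_right (by linarith) (hp0 _).le
    refine h2.trans ?_
    rw [hpw]
    apply hle
    linarith
  · have h2 : (2 : ℝ) ^ (2 * (η - a) * n) ≤ 2 ^ (2 * (η - 2 * e) * n) := hle _ _ (by linarith)
    have h3 : (1 : ℝ) ≤ 2 ^ (2 * (η - 2 * e) * n) := hone _ (by linarith)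
    have h4 : 2 ^ (e * n) * (2 : ℝ) ^ (2 * (η - 2 * e) * n) ≤ 2 ^ (2 * (η - e) * n) := by
      rw [hpw]
      apply hle
      linarith
    have h5 := hp0 (2 * (η - 2 * e))
    nlinarith

/-- the size of an admissible form is subexponential on typical points -/
theorem ad_tend {ι : Type} [Fintype ι] [DecidableEq ι] {Φ : Gau S ι} {A B : Part S} {x : ∀ k, FD (S.F k) ι}
    (hx : Φ.Ad A B x) (e : ℝ) (he : 0 < e) : Tendsto (fun k => (x k).l.T.pb (fun ω =>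
      ¬ Φ.φ k ((x k).l.p.π ω) ((x k).g ω) ≤ 2 ^ (e * (S.F k).n))) UF (𝓝 0) := by
  rw [Metric.tendsto_nhds]
  intro ε hε
  filter_upwards [hx (min e (ε / 2)) (lt_min he (by linarith))] with k hk
  rw [Real.dist_eq, sub_zero, abs_of_nonneg ((x k).l.T.pb_nonneg _)]
  have h1 := hk.2.2.2.1
  have h2 : min e (ε / 2) ≤ ε / 2 := min_le_right _ _
  refine lt_of_le_of_lt (le_trans (FSp.pb_mono _ ?_) h1) (by linarith)
  intro ω _ h3 h4
  apply h3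
  refine h4.trans ?_
  apply Real.rpow_le_rpow_of_exponent_le (by norm_num)
  exact mul_le_mul_of_nonneg_right (min_le_left _ _) (S.F k).pos.le

/-- the final exponent -/
def aF (q : ℕ) (η lam e : ℝ) : ℝ := 2 + 2 * (η - lam) - (10 + q) * e

theorem fin_exp {n η lam e C3 GA GB : ℝ} (q : ℕ) (hGA : 0 ≤ GA) (K : ℝ)
    (hC3 : (C3 ^ 2 * (8 * K ^ q)) ≤ 2 ^ (e * n))
    (h : 2 ^ (2 * (1 - e) * n) * (2 ^ (2 * (η - 2 * e) * n) * GB) ≤
      (C3 ^ 2 * (4 * 2 ^ (e * n) * (2 * 2 ^ (2 * (lam + e) * n)) * (K * 2 ^ (e * n)) ^ q)) * GA) :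
    2 ^ (aF q η lam e * n) * GB ≤ GA := by
  have hpw : ∀ a b : ℝ, (2 : ℝ) ^ (a * n) * 2 ^ (b * n) = 2 ^ ((a + b) * n) := by
    intro a b
    rw [← Real.rpow_add (by norm_num)]
    congr 1; ring
  have hp0 : ∀ a : ℝ, (0 : ℝ) < 2 ^ (a * n) := fun a => Real.rpow_pos_of_pos (by norm_num) _
  have e1 : ((2 : ℝ) ^ (e * n)) ^ q = 2 ^ ((q * e) * n) := by
    rw [← Real.rpow_natCast, ← Real.rpow_mul (by norm_num)]
    congr 1; ring
  have e2 : C3 ^ 2 * (4 * 2 ^ (e * n) * (2 * 2 ^ (2 * (lam + e) * n)) * (K * 2 ^ (e * n)) ^ q) =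
      (C3 ^ 2 * (8 * K ^ q)) * 2 ^ ((e + 2 * (lam + e) + q * e) * n) := by
    rw [mul_pow, e1, ← hpw, ← hpw]
    ring
  rw [e2] at h
  have h2 : (C3 ^ 2 * (8 * K ^ q)) * 2 ^ ((e + 2 * (lam + e) + q * e) * n) * GA ≤
      2 ^ (e * n) * 2 ^ ((e + 2 * (lam + e) + q * e) * n) * GA :=
    mul_le_mul_of_nonneg_right (mul_le_mul_of_nonneg_right hC3 (hp0 _).le) hGA
  have h3 := h.trans h2
  rw [← mul_assoc, hpw, hpw] at h3
  have e3 : (2 : ℝ) ^ ((2 * (1 - e) + 2 * (η - 2 * e)) * n) =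
      2 ^ ((e + (e + 2 * (lam + e) + q * e)) * n) * 2 ^ (aF q η lam e * n) := by
    rw [hpw]
    unfold aF
    congr 2
    ring
  rw [e3, mul_assoc] at h3
  exact le_of_mul_le_mul_left h3 (hp0 _)

section main

variable {s : Sys S (q + 1)} {z : Fin (q + 1)} {c c0 η lam : ℝ}

/-- the event where the gradient in the direction `z` is small -/
def Esm (s : Sys S (q + 1)) (z : Fin (q + 1)) (v : ℝ) (x : ∀ k, FD (S.F k) (Mon (q + 1 + 1) D)) (k : ℕ)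
    (ω : (x k).l.T.Ω) : Prop :=
  ¬ 2 ^ (2 * v * (S.F k).n) ≤ Jf (S.dl 1 k) ((x k).g ω) (ptf s k ((x k).l.p.π ω)) z z

/-- THE POINTWISE INEQUALITY on typical points of the event -/
theorem good (hD : 1 ≤ D) (h0 : 0 ≤ c) (hcc : c ≤ c0) (h1 : c0 < 1) (hη : Hf s D c η) (hcη : c < η)
    (hlam0 : 0 ≤ lam) {x0 : ∀ k, FD (S.F k) (Mon (q + 1 + 1) D)} (hx0 : (gau s D).Opt (cA s c0) (cB s) x0)
    (hz : ∀ e : ℝ, 0 < e → Tendsto (fun k => (x0 k).l.T.pb (fun ω => ¬ 2 ^ (2 * (1 - e) * (S.F k).n) ≤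
      Jf (S.dl 1 k) ((x0 k).g ω) (ptf s k ((x0 k).l.p.π ω)) z z)) UF (𝓝 0))
    {x : ∀ k, FD (S.F k) (Mon (q + 1 + 1) D)} (hx : (gau s D).Opt (cA s c) (cB s) x)
    {y : ∀ k, FD (S.F k) (Mon (q + 1) 1)} (hy : (gau (prB (Lz z) s) 1).Ad (cA s c0) (cB s) y)
    (hyl : ∀ δ : ℝ, 0 < δ → Tendsto (fun k => (y k).l.T.pb (fun ω =>
      ¬ sga (prB (Lz z) s) 1 k ((y k).l.p.π ω) ((y k).g ω) ≤ 2 ^ (2 * (lam + δ) * (S.F k).n))) UF (𝓝 0))
    {Λ : Lab S} (hΛ : Λ.DM (cA s c0) (cB s)) (r0 : LM Λ (lb x0)) (r1 : LM Λ (lb y)) (r2 : LM Λ (lb x))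
    (a e : ℝ) (he : 0 < e) (hea : 8 * e ≤ a) (heη : 2 * e ≤ η) :
    Sp.Typ (S := Λ.sp) (fun k (ω : (Λ k).T.Ω) => Esm s z (η - a) x k ((r2.q k).π ω) →
      2 ^ (aF q η lam e * (S.F k).n) *
        GG (S.dl 1 k) ((y k).g ((r1.q k).π ω)) (ptf (prB (Lz z) s) k ((Λ k).p.π ω)) ≤
        GG (S.dl 1 k) ((x0 k).g ((r0.q k).π ω)) (ptf s k ((Λ k).p.π ω))) := by
  have hxA : (gau s D).Ad (cA s c0) (cB s) x :=
    Pool.Agent.Helper3.SG.Ad_of_DM hx.1 (DMc.mono hcc (Gau.Ad.dm _ hx.1))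
  have hY := Ad_up hD hy
  have hW := pbA_ad s (fun _ => Lz z) (fun _ => mbd (Lz z)) (S.Sub_const (mbd_nonneg (Lz z)))
    (Eventually.of_forall fun _ i j => le_mbd (Lz z) i j) hY
  have hWt := pbA_typ s (fun _ => Lz z) (fun _ => mbd (Lz z)) (S.Sub_const (mbd_nonneg (Lz z)))
    (Eventually.of_forall fun _ i j => le_mbd (Lz z) i j) hY
  -- the typical events
  have t1 : Sp.Typ (S := Λ.sp) (fun k (ω : (Λ k).T.Ω) => ∀ v, qf ((x k).g ((r2.q k).π ω)) v ≤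
      2 ^ (e * (S.F k).n) * qf ((x0 k).g ((r0.q k).π ω)) v) := LM.dom hx0 r0 hxA r2 hΛ e he
  have t2 : Sp.Typ (S := Λ.sp) (fun k (ω : (Λ k).T.Ω) => ∀ v, qf (cutm ((gau s D).cp k)
      (pbf (fun _ => Lz z) (fun k => upD hD (y k)) k ((r1.q k).π ω))) v ≤
      2 ^ (e * (S.F k).n) * qf ((x0 k).g ((r0.q k).π ω)) v) := LM.dom hx0 r0 hW r1 hΛ e he
  have t3 : Sp.Typ (S := Λ.sp) (fun k (ω : (Λ k).T.Ω) => Cpd ((gau s D).cp k)
      (pbf (fun _ => Lz z) (fun k => upD hD (y k)) k ((r1.q k).π ω))) :=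
    r1.typ (fun k ω => Cpd ((gau s D).cp k) (pbf (fun _ => Lz z) (fun k => upD hD (y k)) k ω)) hWt
  have t4 : Sp.Typ (S := Λ.sp) (fun k (ω : (Λ k).T.Ω) => 2 ^ (2 * (1 - e) * (S.F k).n) ≤
      Jf (S.dl 1 k) ((x0 k).g ((r0.q k).π ω)) (ptf s k ((x0 k).l.p.π ((r0.q k).π ω))) z z) :=
    r0.typ (fun k ω => 2 ^ (2 * (1 - e) * (S.F k).n) ≤
      Jf (S.dl 1 k) ((x0 k).g ω) (ptf s k ((x0 k).l.p.π ω)) z z) (hz e he)
  have t5 : Sp.Typ (S := Λ.sp) (fun k (ω : (Λ k).T.Ω) => sph s D k ((x0 k).l.p.π ((r0.q k).π ω))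
      ((x0 k).g ((r0.q k).π ω)) ≤ 2 ^ (e * (S.F k).n)) :=
    r0.typ (fun k ω => sph s D k ((x0 k).l.p.π ω) ((x0 k).g ω) ≤ 2 ^ (e * (S.F k).n)) (ad_tend hx0.1 e he)
  have t6 : Sp.Typ (S := Λ.sp) (fun k (ω : (Λ k).T.Ω) => 2 ^ (2 * (η - e) * (S.F k).n) ≤
      1 + trJ (S.dl 1 k) ((x k).g ((r2.q k).π ω)) (ptf s k ((x k).l.p.π ((r2.q k).π ω)))) :=
    r2.typ (fun k ω => 2 ^ (2 * (η - e) * (S.F k).n) ≤
      1 + trJ (S.dl 1 k) ((x k).g ω) (ptf s k ((x k).l.p.π ω)))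
      (trJ_typ s h0 (hcc.trans_lt h1) hη (Or.inl hcη) hx e he)
  have t7 : Sp.Typ (S := Λ.sp) (fun k (ω : (Λ k).T.Ω) => sga (prB (Lz z) s) 1 k ((y k).l.p.π ((r1.q k).π ω))
      ((y k).g ((r1.q k).π ω)) ≤ 2 ^ (2 * (lam + e) * (S.F k).n)) :=
    r1.typ (fun k ω => sga (prB (Lz z) s) 1 k ((y k).l.p.π ω) ((y k).g ω) ≤ 2 ^ (2 * (lam + e) * (S.F k).n)) (hyl e he)
  -- constants
  set C2 : ℝ := ((q + 1 + 1 : ℕ) : ℝ) * nn (q + 1 + 1) D * Cm (q + 1 + 1) D ^ 2 with hC2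
  have hC20 : 0 ≤ C2 := by
    have := nn_one (q + 1 + 1) D
    rw [hC2]
    positivity
  have hK0 : 0 ≤ cPB q D := zero_le_one.trans (cPB_one q D)
  have u1 := (S.Sub_const (show (0 : ℝ) ≤ C2 + 2 by linarith)).eventually_le he
  have u2 := (S.Sub_const (show (0 : ℝ) ≤ (q : ℝ) + 2 by positivity)).eventually_le he
  have u3 := (S.Sub_const (show (0 : ℝ) ≤ ((q + 1).factorial : ℝ) ^ 2 * (8 * cPB q D ^ q) by positivity)).eventually_le he
  refine typ_mono (typ_and (typ_and (typ_and (typ_and (typ_and (typ_and t1 t2) t3) t4) t5) t6) t7) ?_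
  filter_upwards [hx0.1 1 one_pos, hx.1 1 one_pos, hy 1 one_pos, u1, u2, u3] with k b0 b1 b2 v1 v2 v3 ω hω hall hsm
  obtain ⟨⟨⟨⟨⟨⟨f1, f2⟩, f3⟩, f4⟩, f5⟩, f6⟩, f7⟩ := hall
  have hn := (S.F k).pos
  have p0 : (x0 k).l.p.π ((r0.q k).π ω) = (Λ k).p.π ω := r0.hq k ω hω
  have p1 : (y k).l.p.π ((r1.q k).π ω) = (Λ k).p.π ω := r1.hq k ω hω
  have p2 : (x k).l.p.π ((r2.q k).π ω) = (Λ k).p.π ω := r2.hq k ω hω
  rw [p0] at f4 f5
  rw [p1] at f7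
  rw [p2] at f6
  unfold Esm at hsm
  rw [p2] at hsm
  have c0' := (b0.2.2.1 _ ((r0.q k).supp ω hω)).1
  have c1' := (b1.2.2.1 _ ((r2.q k).supp ω hω)).1
  have c2' := (b2.2.2.1 _ ((r1.q k).supp ω hω)).1
  have hcut : cutm ((gau s D).cp k) (pbf (fun _ => Lz z) (fun k => upD hD (y k)) k ((r1.q k).π ω)) =
      1 + pbk (Lz z) (upm hD ((y k).g ((r1.q k).π ω))) := by
    unfold cutm
    rw [if_pos f3]
    rfl
  rw [hcut] at f2
  have hpt : ext (Lz z) (ptf s k ((Λ k).p.π ω)) = ptf (prB (Lz z) s) k ((Λ k).p.π ω) :=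
    (ptf_pr s (fun _ => Lz z) (fun _ => mbd (Lz z)) (S.Sub_const (mbd_nonneg (Lz z)))
      (Eventually.of_forall fun _ i j => le_mbd (Lz z) i j) k _).symm
  obtain ⟨w1, w2, w3⟩ := exps hn hC20 (by linarith) he hea heη q (by linarith)
  have hgam : gam (S.dl 1 k) ((x0 k).g ((r0.q k).π ω)) (ptf s k ((Λ k).p.π ω)) ≤ C2 * 2 ^ ((2 + e) * (S.F k).n) := by
    have h8 := gam_le ((x0 k).g ((r0.q k).π ω)) c0'.pdM (S.dl 1 k) (S.dl_pos 1 k) (ptf s k ((Λ k).p.π ω))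
    have e1 : (2 : ℝ) ^ (2 * (S.F k).n) = (S.dl 1 k ^ 2)⁻¹ := by
      rw [← inv_pow, inv_dl_one, ← Real.rpow_natCast, ← Real.rpow_mul (by norm_num)]
      congr 1; push_cast; ring
    have h9 : gam (S.dl 1 k) ((x0 k).g ((r0.q k).π ω)) (ptf s k ((Λ k).p.π ω)) ≤ 2 ^ (2 * (S.F k).n) *
        (C2 * phi (S.dl 1 k) ((x0 k).g ((r0.q k).π ω)) (ptf s k ((Λ k).p.π ω))) := by
      rw [e1, ← div_eq_inv_mul, le_div_iff₀ (by have := S.dl_pos 1 k; positivity), mul_comm]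
      exact h8
    refine h9.trans ?_
    have h10 : phi (S.dl 1 k) ((x0 k).g ((r0.q k).π ω)) (ptf s k ((Λ k).p.π ω)) ≤ 2 ^ (e * (S.F k).n) := f5
    have e2 : C2 * (2 : ℝ) ^ ((2 + e) * (S.F k).n) = 2 ^ (2 * (S.F k).n) * (C2 * 2 ^ (e * (S.F k).n)) := by
      rw [add_mul, Real.rpow_add (by norm_num)]
      ring
    rw [e2]
    exact mul_le_mul_of_nonneg_left (mul_le_mul_of_nonneg_left h10 hC20) (by positivity)
  have hB0 : 1 + gam (S.dl 1 k) ((y k).g ((r1.q k).π ω)) (ext (Lz z) (ptf s k ((Λ k).p.π ω))) ≤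
      2 * 2 ^ (2 * (lam + e) * (S.F k).n) := by
    rw [hpt]
    have h11 : gam (S.dl 1 k) ((y k).g ((r1.q k).π ω)) (ptf (prB (Lz z) s) k ((Λ k).p.π ω)) ≤
      2 ^ (2 * (lam + e) * (S.F k).n) := f7
    have h12 : (1 : ℝ) ≤ 2 ^ (2 * (lam + e) * (S.F k).n) := Real.one_le_rpow (by norm_num) (by positivity)
    linarith
  have hmain := pnt hD z c0'.pdM c1'.pdM c2'.pdM c2'.2.1 (S.dl_pos 1 k) (ptf s k ((Λ k).p.π ω))
    (2 ^ (e * (S.F k).n)) (2 ^ (2 * (1 - e) * (S.F k).n)) (2 ^ (4 * e * (S.F k).n)) (2 ^ (2 * (η - e) * (S.F k).n))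
    (2 ^ (2 * (η - 2 * e) * (S.F k).n)) (2 ^ (2 * (η - a) * (S.F k).n)) (2 * 2 ^ (2 * (lam + e) * (S.F k).n))
    (Real.one_le_rpow (by norm_num) (by positivity)) f1 f2 (by positivity) f4 (by positivity)
    ((add_le_add le_rfl hgam).trans w1) f6 (not_le.mp hsm).le (by positivity) w3 w2 hB0
  rw [hpt] at hmain
  exact fin_exp q (GG_pos' _ c0'.pdM _).le (cPB q D) (by linarith) hmain

theorem UB_vx {m : ℕ} (s : Sys S m) (l : Lab S) (T : ℕ → FSp) (π : ∀ k, (T k).Ω → (l k).T.Ω)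
    (hsup : ∀ k ω, (T k).μ ω ≠ 0 → (l k).T.μ (π k ω) ≠ 0)
    (g : ∀ k, (T k).Ω → Matrix (Mon (m + 1) D) (Mon (m + 1) D) ℝ)
    (hg : ∀ᶠ k in UF, ∀ ω, (T k).μ ω ≠ 0 → Cpd ((gau s D).cp k) (g k ω)) :
    ∃ C : ℝ, 0 ≤ C ∧ (∀ᶠ k in UF, ∀ ω, (T k).μ ω ≠ 0 → 0 ≤ vx s k (g k ω) ((l k).p.π (π k ω)) ∧
      vx s k (g k ω) ((l k).p.π (π k ω)) ≤ C * (S.F k).n) ∧
      UB (fun k => (∑ ω, (T k).μ ω * vx s k (g k ω) ((l k).p.π (π k ω))) / (S.F k).n) := by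
  obtain ⟨C, hC, h⟩ := logGG_ub s D
  have h2 : ∀ᶠ k in UF, ∀ ω, (T k).μ ω ≠ 0 → 0 ≤ vx s k (g k ω) ((l k).p.π (π k ω)) ∧
      vx s k (g k ω) ((l k).p.π (π k ω)) ≤ C * (S.F k).n := by
    filter_upwards [h, hg] with k a b ω hω
    exact ⟨logGG_nonneg _ (b ω hω).pdM _, a _ ((l k).p.supp _ (hsup k ω hω)) _ (b ω hω)⟩
  refine ⟨C, hC, h2, UB_of_nonneg_le (C := C) ?_ ?_⟩
  · filter_upwards [h2] with k hk
    apply div_nonneg _ (S.F k).pos.le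
    apply Finset.sum_nonneg
    intro ω _
    by_cases h0 : (T k).μ ω = 0
    · rw [h0, zero_mul]
    · exact mul_nonneg ((T k).nn ω) (hk ω h0).1
  · filter_upwards [h2] with k hk
    rw [div_le_iff₀ (S.F k).pos]
    apply sum_mul_le
    intro ω hω
    exact (hk ω hω).2

/-- **ST_DZ**: if the gradient of the optimal form of the window `c0` in the direction `z` is `2 ^ n`, and the gradient of
the optimal form of degree 1 of the projection along `z`, labels of the window `c0`, is at most `2 ^ (lam n)` with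
`lam < eta`, then the gradient of the optimal form of the window `c <= c0` of thickness `eta` in the direction `z` is at
least `2 ^ ((eta - a) n)` on typical points, for all `a > 0`. -/
theorem st_dz (hD : 1 ≤ D) (hst : ST 1 q) (h0 : 0 ≤ c) (hcc : c ≤ c0) (h1 : c0 < 1) (hη : Hf s D c η) (hcη : c < η)
    (hlam0 : 0 ≤ lam) (hlη : lam < η) {x0 : ∀ k, FD (S.F k) (Mon (q + 1 + 1) D)}
    (hx0 : (gau s D).Opt (cA s c0) (cB s) x0)
    (hz : ∀ e : ℝ, 0 < e → Tendsto (fun k => (x0 k).l.T.pb (fun ω => ¬ 2 ^ (2 * (1 - e) * (S.F k).n) ≤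
      Jf (S.dl 1 k) ((x0 k).g ω) (ptf s k ((x0 k).l.p.π ω)) z z)) UF (𝓝 0))
    {x : ∀ k, FD (S.F k) (Mon (q + 1 + 1) D)} (hx : (gau s D).Opt (cA s c) (cB s) x)
    {y : ∀ k, FD (S.F k) (Mon (q + 1) 1)} (hy : (gau (prB (Lz z) s) 1).Opt (cA s c0) (cB s) y)
    (hyl : ∀ δ : ℝ, 0 < δ → Tendsto (fun k => (y k).l.T.pb (fun ω =>
      ¬ sga (prB (Lz z) s) 1 k ((y k).l.p.π ω) ((y k).g ω) ≤ 2 ^ (2 * (lam + δ) * (S.F k).n))) UF (𝓝 0))
    (a : ℝ) (ha : 0 < a) :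
    Tendsto (fun k => (x k).l.T.pb (fun ω => ¬ 2 ^ (2 * (η - a) * (S.F k).n) ≤
      Jf (S.dl 1 k) ((x k).g ω) (ptf s k ((x k).l.p.π ω)) z z)) UF (𝓝 0) := by
  set P : ℕ → ℝ := fun k => (x k).l.T.pb (fun ω => Esm s z (η - a) x k ω) with hP
  have hU : UB P := UB_of_nonneg_le (C := 1) (Eventually.of_forall fun k => (x k).l.T.pb_nonneg _)
    (Eventually.of_forall fun k => (x k).l.T.pb_le_one _)
  have hlim := ul_tendsto hU
  have hP0 : 0 ≤ ul P := ge_of_tendsto hlim (Eventually.of_forall fun k => (x k).l.T.pb_nonneg _)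
  rcases hP0.eq_or_lt with hP1 | hP1
  · rw [← hP1] at hlim
    exact hlim
  exfalso
  -- the common label
  set Λ : Lab S := ((lb x0).join (lb y)).join (lb x) with hΛd
  have hΛ : Λ.DM (cA s c0) (cB s) :=
    ((Gau.Ad.dm _ hx0.1).join (Gau.Ad.dm _ hy.1)).join (DMc.mono hcc (Gau.Ad.dm _ hx.1))
  set r0 : LM Λ (lb x0) := (LM.fst ((lb x0).join (lb y)) (lb x)).comp (LM.fst (lb x0) (lb y)) with hr0
  set r1 : LM Λ (lb y) := (LM.fst ((lb x0).join (lb y)) (lb x)).comp (LM.snd (lb x0) (lb y)) with hr1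
  set r2 : LM Λ (lb x) := LM.snd ((lb x0).join (lb y)) (lb x) with hr2
  set E : ∀ k, (Λ k).T.Ω → Prop := fun k ω => Esm s z (η - a) x k ((r2.q k).π ω) with hE
  have hEP : (fun k => (Λ k).T.pb (E k)) = P := funext fun k => pb_push (r2.q k) (fun ω => Esm s z (η - a) x k ω)
  have hE0 : 0 < ul (fun k => (Λ k).T.pb (E k)) := by rw [hEP]; exact hP1
  have hY := r1.opt hy hΛ
  have hF : Fac s (prB (Lz z) s) := Fac.pr s (fun _ => Lz z) (fun _ => mbd (Lz z)) (S.Sub_const (mbd_nonneg (Lz z)))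
    (Eventually.of_forall fun _ i j => le_mbd (Lz z) i j)
  have hg0 : ∀ᶠ k in UF, ∀ ω, (Λ k).T.μ ω ≠ 0 → Cpd ((gau s D).cp k) ((x0 k).g ((r0.q k).π ω)) := by
    filter_upwards [hx0.1 1 one_pos] with k hk ω hω
    exact (hk.2.2.1 _ ((r0.q k).supp ω hω)).1
  have hgy : ∀ᶠ k in UF, ∀ ω, (Λ k).T.μ ω ≠ 0 → Cpd ((gau (prB (Lz z) s) 1).cp k) ((y k).g ((r1.q k).π ω)) := by
    filter_upwards [hy.1 1 one_pos] with k hk ω hω
    exact (hk.2.2.1 _ ((r1.q k).supp ω hω)).1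
  have hcnt := cnt (y := r1.fd) hF hD le_rfl hst (h0.trans hcc) h1 hY (fun k ω => (x0 k).g ((r0.q k).π ω))
    (fun k ω ω' a b c d => (r0.fd k).meas ω ω' a b c d |>.1) hg0 (fun e he => by
      have h2 := r0.typ (fun k ω => sph s D k ((x0 k).l.p.π ω) ((x0 k).g ω) ≤ 2 ^ (e * (S.F k).n))
        (ad_tend hx0.1 e he)
      refine squeeze_zero (fun k => FSp.pb_nonneg _ _) (fun k => FSp.pb_mono _ ?_) h2
      intro ω hω h3 h4
      apply h3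
      have p0 : (x0 k).l.p.π ((r0.q k).π ω) = (Λ k).p.π ω := r0.hq k ω hω
      rw [p0] at h4
      exact h4) E hE0
  -- the exponent
  set e : ℝ := min (a / 8) (min (η / 2) ((η - lam) / (10 + q))) with hed
  have hq : (0 : ℝ) < 10 + q := by positivity
  have he : 0 < e := lt_min (by linarith) (lt_min (by linarith) (div_pos (by linarith) hq))
  have he1 : 8 * e ≤ a := by
    have := min_le_left (a / 8) (min (η / 2) ((η - lam) / (10 + q)))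
    linarith
  have he2 : 2 * e ≤ η := by
    have h2 := (min_le_right (a / 8) (min (η / 2) ((η - lam) / (10 + q)))).trans
      (min_le_left (η / 2) ((η - lam) / (10 + q)))
    linarith
  have he3 : (10 + q) * e ≤ η - lam := by
    have h2 := (min_le_right (a / 8) (min (η / 2) ((η - lam) / (10 + q)))).trans
      (min_le_right (η / 2) ((η - lam) / (10 + q)))
    rw [← hed, le_div_iff₀ hq] at h2
    linarith
  have hgood := good hD h0 hcc h1 hη hcη hlam0 hx0 hz hx hy.1 hyl hΛ r0 r1 r2 a e he he1 he2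
  set G : ∀ k, (Λ k).T.Ω → Prop := fun k ω => 2 ^ (aF q η lam e * (S.F k).n) *
        GG (S.dl 1 k) ((y k).g ((r1.q k).π ω)) (ptf (prB (Lz z) s) k ((Λ k).p.π ω)) ≤
        GG (S.dl 1 k) ((x0 k).g ((r0.q k).π ω)) (ptf s k ((Λ k).p.π ω)) with hG
  have hsup : ∀ k ω, ((Λ k).T.rest (E k)).μ ω ≠ 0 → (Λ k).T.μ ω ≠ 0 := fun k ω h => ((Λ k).T.rest_supp (E k) ω h).1
  have hGt : Tendsto (fun k => ((Λ k).T.rest (E k)).pb (fun ω => ¬ G k ω)) UF (𝓝 0) := by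
    have h2 := tend_rest E (fun k ω => ¬ (E k ω → G k ω)) hE0 hgood
    have hUE : UB (fun k => (Λ k).T.pb (E k)) := by rw [hEP]; exact hU
    refine squeeze_zero' (Eventually.of_forall fun k => FSp.pb_nonneg _ _) ?_ h2
    filter_upwards [(ul_tendsto hUE).eventually (lt_mem_nhds hE0)] with k hk
    apply FSp.pb_mono
    intro ω hω h3 h4
    exact h3 (h4 (((Λ k).T.rest_supp (E k) ω hω).2 hk.ne'))
  obtain ⟨C1, hC1, hv1, hUB1⟩ := UB_vx (D := D) s Λ (fun k => (Λ k).T.rest (E k)) (fun _ ω => ω) hsup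
    (fun k ω => (x0 k).g ((r0.q k).π ω)) (hg0.mono fun k hk ω hω => hk ω (hsup k ω hω))
  obtain ⟨C2, hC2, hv2, hUB2⟩ := UB_vx (D := 1) (prB (Lz z) s) Λ (fun k => (Λ k).T.rest (E k)) (fun _ ω => ω) hsup
    (fun k ω => (y k).g ((r1.q k).π ω)) (hgy.mono fun k hk ω hω => hk ω (hsup k ω hω))
  have t1 := ul_tendsto hUB2
  have t2 := (ul_tendsto hUB1).sub_const (aF q η lam e)
  have t3 := t2.add (hGt.const_mul (C2 + |aF q η lam e|))
  rw [mul_zero, add_zero] at t3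
  have h4 := le_of_tendsto_of_tendsto t1 t3 (by
    filter_upwards [hv1, hv2, hg0, hgy] with k a1 a2 a3 a4
    have hn := (S.F k).pos
    have h5 := exp_le ((Λ k).T.rest (E k)) (fun ω => vx s k ((x0 k).g ((r0.q k).π ω)) ((Λ k).p.π ω))
      (fun ω => vx (prB (Lz z) s) k ((y k).g ((r1.q k).π ω)) ((Λ k).p.π ω)) (G k) (aF q η lam e * (S.F k).n)
      (C2 * (S.F k).n) (by
        intro ω hω hGω
        have b1 := GG_pos' (S.dl 1 k) (a3 ω (hsup k ω hω)).pdM (ptf s k ((Λ k).p.π ω))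
        have b2 := GG_pos' (S.dl 1 k) (a4 ω (hsup k ω hω)).pdM (ptf (prB (Lz z) s) k ((Λ k).p.π ω))
        have b3 := Real.logb_le_logb_of_le (b := 2) (by norm_num) (by positivity) hGω
        rw [Real.logb_mul (by positivity) b2.ne', Real.logb_rpow (by norm_num) (by norm_num)] at b3
        show Real.logb 2 _ ≤ Real.logb 2 _ - _
        linarith) (fun ω hω => (a2 ω hω).2) (fun ω hω => (a1 ω hω).1)
    rw [div_le_iff₀ hn]
    rw [abs_mul, abs_of_pos hn] at h5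
    refine h5.trans (le_of_eq ?_)
    field_simp)
  have h6 : ul (fun k => (∑ ω, ((Λ k).T.rest (E k)).μ ω * vx s k ((x0 k).g ((r0.q k).π ω)) ((Λ k).p.π ω)) /
      (S.F k).n) ≤ 2 * (((q + 1 : ℕ) : ℝ) - q) + ul (fun k => (∑ ω, ((Λ k).T.rest (E k)).μ ω *
        vx (prB (Lz z) s) k ((y k).g ((r1.q k).π ω)) ((Λ k).p.π ω)) / (S.F k).n) := hcnt
  have h7 : aF q η lam e ≤ 2 := by
    push_cast at h6
    linarith
  unfold aF at h7
  linarith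

end main

end

end Pool.Agent.Helper41.DZ
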